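import Pool.Agent.R895.Red

/-!
# The integral of `(1 - 2 q / h)₊`
-/

set_option autoImplicit false

namespace Pool.Agent.K6.H56.E6

open Matrix Pool.Agent.R895 MeasureTheory
open scoped Pointwise

theorem vol_ball (n : ℕ) {r : ℝ} (hr : 0 < r) :
    volume {x : Fin n → ℂ | ∑ i, ‖x i‖ ^ 2 < r} =
      ENNReal.ofReal (r ^ n * (Real.pi ^ n / n.factorial)) := by
  have h1 := Complex.volume_sum_rpow_lt_one (Fin n) (p := 2) one_le_two
  have h2 : {x : Fin n → ℂ | ∑ i, ‖x i‖ ^ 2 < r} =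
      √r • {x : Fin n → ℂ | ∑ i, ‖x i‖ ^ (2 : ℝ) < 1} := by
    have hs : √r ≠ 0 := (Real.sqrt_pos.2 hr).ne'
    ext x
    rw [Set.mem_smul_set_iff_inv_smul_mem₀ hs]
    simp only [Set.mem_ofPred_eq, Pi.smul_apply, norm_smul, norm_inv, Real.rpow_two, mul_pow,
      ← Finset.mul_sum]
    rw [Real.norm_of_nonneg (Real.sqrt_nonneg r), inv_pow, Real.sq_sqrt hr.le,
      inv_mul_lt_iff₀ hr, mul_one]
  rw [h2, Measure.addHaar_smul_of_nonneg _ (Real.sqrt_nonneg r), h1,
    ← ENNReal.ofReal_mul (by positivity)]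
  congr 1
  have h3 : Module.finrank ℝ (Fin n → ℂ) = 2 * n := by
    rw [Module.finrank_pi_fintype]
    simp [Complex.finrank_real_complex, mul_comm]
  rw [h3, pow_mul, Real.sq_sqrt hr.le, Fintype.card_fin]
  have h4 : Real.Gamma (2 / 2 + 1) = 1 := by
    rw [div_self two_ne_zero]
    norm_num
  have h5 : Real.Gamma (2 * (n : ℝ) / 2 + 1) = n.factorial := by
    rw [mul_div_cancel_left₀ _ two_ne_zero]
    exact Real.Gamma_nat_eq_factorial n
  rw [h4, h5, mul_one]

theorem layer {n : ℕ} (f : (Fin n → ℂ) → ℝ) (hf : Continuous f) :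
    ∫⁻ x : Fin n → ℂ, ENNReal.ofReal (f x) =
    ∫⁻ t in Set.Ioi 0, volume {x : Fin n → ℂ | t < max 0 (f x)} := by
  have h0 : ∀ x, 0 ≤ max 0 (f x) := fun x => le_max_left 0 _
  have hm : AEMeasurable (fun x => max 0 (f x)) (volume : Measure (Fin n → ℂ)) :=
    (continuous_const.max hf).measurable.aemeasurable
  have h1 := lintegral_eq_lintegral_meas_lt (volume : Measure (Fin n → ℂ))
    (f := fun x => max 0 (f x)) (Filter.Eventually.of_forall h0) hm
  rw [← h1]
  refine lintegral_congr fun x => ?_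
  rw [ENNReal.ofReal_max, ENNReal.ofReal_zero]
  exact (max_eq_right zero_le).symm

theorem lvl (n : ℕ) {c : ℝ} (hc : 0 < c) (t : ℝ) (ht : 0 < t) :
    volume {x : Fin n → ℂ | t < max 0 (1 - c * ∑ i, ‖x i‖ ^ 2)} =
      (Set.Ioo (0 : ℝ) 1).indicator
        (fun t => ENNReal.ofReal ((1 / c * (1 - t)) ^ n * (Real.pi ^ n / n.factorial))) t := by
  by_cases h1t : t < 1
  · have hpos : 0 < 1 / c * (1 - t) := by
      have : 0 < 1 - t := by linarith
      positivity
    rw [Set.indicator_of_mem (show t ∈ Set.Ioo (0 : ℝ) 1 from ⟨ht, h1t⟩), ← vol_ball n hpos]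
    congr 1
    ext x
    simp only [Set.mem_ofPred_eq, lt_max_iff]
    constructor
    · rintro (h | h)
      · exact absurd h ht.not_gt
      · rw [one_div, ← div_eq_inv_mul, lt_div_iff₀ hc]
        linarith
    · intro h
      right
      rw [one_div, ← div_eq_inv_mul, lt_div_iff₀ hc] at h
      linarith
  · rw [Set.indicator_of_notMem (fun h => h1t h.2)]
    convert measure_empty (μ := (volume : Measure (Fin n → ℂ)))
    ext x
    simp only [Set.mem_ofPred_eq, lt_max_iff, Set.mem_empty_iff_false, iff_false, not_or, not_lt]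
    refine ⟨ht.le, ?_⟩
    have : 0 ≤ c * ∑ i, ‖x i‖ ^ 2 := by positivity
    linarith [not_lt.1 h1t]

theorem real_int (n : ℕ) {c : ℝ} :
    ∫ t in Set.Ioo (0 : ℝ) 1, (1 / c * (1 - t)) ^ n * (Real.pi ^ n / n.factorial) =
      (1 / c) ^ n * Real.pi ^ n / (n + 1).factorial := by
  rw [← integral_Ioc_eq_integral_Ioo, ← intervalIntegral.integral_of_le zero_le_one]
  simp_rw [mul_pow]
  rw [intervalIntegral.integral_mul_const, intervalIntegral.integral_const_mul]
  have h5 : ∫ t in (0 : ℝ)..1, (1 - t) ^ n = 1 / (n + 1) := by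
    rw [intervalIntegral.integral_comp_sub_left (fun t : ℝ => t ^ n) 1]
    simp
  rw [h5, Nat.factorial_succ]
  push_cast
  have h6 : (n.factorial : ℝ) ≠ 0 := by positivity
  have h7 : ((n : ℝ) + 1) ≠ 0 := by positivity
  field_simp

theorem lin_int (n : ℕ) {c : ℝ} (hc : 0 < c) :
    ∫⁻ t in Set.Ioo (0 : ℝ) 1, ENNReal.ofReal ((1 / c * (1 - t)) ^ n *
      (Real.pi ^ n / n.factorial)) =
      ENNReal.ofReal ((1 / c) ^ n * Real.pi ^ n / (n + 1).factorial) := by
  have hcont : Continuous fun t : ℝ => (1 / c * (1 - t)) ^ n * (Real.pi ^ n / n.factorial) := by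
    fun_prop
  have hint : IntegrableOn (fun t : ℝ => (1 / c * (1 - t)) ^ n * (Real.pi ^ n / n.factorial))
      (Set.Ioo 0 1) := (hcont.integrableOn_Icc (a := 0) (b := 1)).mono_set Set.Ioo_subset_Icc_self
  rw [← real_int n, ofReal_integral_eq_lintegral_ofReal hint]
  refine (ae_restrict_iff' measurableSet_Ioo).2 (Filter.Eventually.of_forall fun t ht => ?_)
  have h5 : 0 ≤ 1 - t := by linarith [ht.2]
  show 0 ≤ (1 / c * (1 - t)) ^ n * (Real.pi ^ n / n.factorial)
  positivity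

theorem int_ball (n : ℕ) {c : ℝ} (hc : 0 < c) :
    ∫⁻ x : Fin n → ℂ, ENNReal.ofReal (1 - c * ∑ i, ‖x i‖ ^ 2) =
      ENNReal.ofReal ((1 / c) ^ n * Real.pi ^ n / (n + 1).factorial) := by
  have hcont : Continuous fun x : Fin n → ℂ => 1 - c * ∑ i, ‖x i‖ ^ 2 := by fun_prop
  rw [layer _ hcont, setLIntegral_congr_fun measurableSet_Ioi (fun t ht => lvl n hc t ht),
    lintegral_indicator measurableSet_Ioo, Measure.restrict_restrict measurableSet_Ioo]
  have h4 : Set.Ioo (0 : ℝ) 1 ∩ Set.Ioi 0 = Set.Ioo 0 1 :=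
    Set.inter_eq_left.2 fun t ht => ht.1
  rw [h4, lin_int n hc]

theorem q_conj_self {n : ℕ} (L : Matrix (Fin n) (Fin n) ℂ) (x : Fin n → ℂ) :
    q (Lᴴ * L) x = ∑ i, ‖(L *ᵥ x) i‖ ^ 2 := by
  unfold q
  rw [← mulVec_mulVec, dotProduct_mulVec, ← star_mulVec, dotProduct, Complex.re_sum]
  refine Finset.sum_congr rfl fun i _ => ?_
  rw [Pi.star_apply, Complex.star_def, ← Complex.normSq_eq_conj_mul_self, Complex.ofReal_re,
    Complex.normSq_eq_norm_sq]

open scoped MatrixOrder ComplexOrder in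
theorem exists_sq {n : ℕ} {H : Matrix (Fin n) (Fin n) ℂ} (hH : Pd H) :
    ∃ L : Matrix (Fin n) (Fin n) ℂ, H = Lᴴ * L := by
  have h1 : H.PosSemidef := by
    refine PosSemidef.of_dotProduct_mulVec_nonneg hH.1 fun x => ?_
    rw [Complex.nonneg_iff]
    refine ⟨hH.psd.2 x, ?_⟩
    have h2 : star (star x ⬝ᵥ (H *ᵥ x)) = star x ⬝ᵥ (H *ᵥ x) := by
      calc star (star x ⬝ᵥ (H *ᵥ x)) = star (H *ᵥ x) ⬝ᵥ x := by
            rw [star_dotProduct, star_star]
        _ = star x ⬝ᵥ (H *ᵥ x) := by rw [star_mulVec, hH.1.eq, ← dotProduct_mulVec]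
    have h3 := congrArg Complex.im h2
    rw [Complex.star_def, Complex.conj_im] at h3
    linarith
  obtain ⟨L, hL⟩ := CStarAlgebra.nonneg_iff_eq_star_mul_self.mp h1.nonneg
  exact ⟨L, hL⟩

/-- PIECE B2 -/
theorem blich_vol {n : ℕ} {H : Matrix (Fin n) (Fin n) ℂ} (hH : Pd H) {h : ℝ} (hh : 0 < h) :
    ∫⁻ x : Fin n → ℂ, ENNReal.ofReal (1 - 2 * q H x / h) =
      ENNReal.ofReal ((h / 2) ^ n * Real.pi ^ n / ((n + 1).factorial * H.det.re)) := by
  obtain ⟨L, rfl⟩ := exists_sq hH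
  have hdet : (Lᴴ * L).det = ((Complex.normSq L.det : ℝ) : ℂ) := by
    rw [det_mul, det_conjTranspose, Complex.star_def, ← Complex.normSq_eq_conj_mul_self]
  have hL : L.det ≠ 0 := by
    intro h0
    obtain ⟨v, hv, hv0⟩ := exists_mulVec_eq_zero_iff.2 h0
    have h1 := hH.2 v hv
    rw [q_conj_self, hv0] at h1
    simp at h1
  let f : (Fin n → ℂ) →ₗ[ℝ] (Fin n → ℂ) := (Matrix.toLin' L).restrictScalars ℝ
  have hf : LinearMap.det f = Complex.normSq L.det := by
    show LinearMap.det ((Matrix.toLin' L).restrictScalars ℝ) = _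
    rw [LinearMap.det_restrictScalars, LinearMap.det_toLin', Algebra.norm_complex_apply]
  have hf0 : LinearMap.det f ≠ 0 := by rw [hf]; exact (Complex.normSq_pos.2 hL).ne'
  have h1 : ∀ x : Fin n → ℂ, 1 - 2 * q (Lᴴ * L) x / h =
      1 - (2 / h) * ∑ i, ‖(f x) i‖ ^ 2 := by
    intro x
    have h2 : f x = L *ᵥ x := rfl
    rw [q_conj_self, h2]
    ring
  simp_rw [h1]
  have hm : Measurable fun y : Fin n → ℂ => ENNReal.ofReal (1 - (2 / h) * ∑ i, ‖y i‖ ^ 2) := by
    fun_prop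
  have hfm : Measurable f := (LinearMap.continuous_of_finiteDimensional f).measurable
  have h3 := lintegral_map (μ := (volume : Measure (Fin n → ℂ))) hm hfm
  rw [← h3, Measure.map_linearMap_addHaar_eq_smul_addHaar _ hf0, lintegral_smul_measure,
    int_ball n (by positivity : 0 < 2 / h), hdet, Complex.ofReal_re, hf, smul_eq_mul,
    ← ENNReal.ofReal_mul (abs_nonneg _)]
  congr 1
  have h4 : 0 < Complex.normSq L.det := Complex.normSq_pos.2 hL
  rw [abs_of_pos (inv_pos.2 h4)]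
  field_simp

end Pool.Agent.K6.H56.E6
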