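import Pool.Agent.K6.H56.E6.PieceB1
import Pool.Agent.K6.H56.E6.PieceB2
import Pool.Agent.R895.LemA

/-!
# Blichfeldt's bound for hermitian forms over the Eisenstein integers
-/

set_option autoImplicit false

namespace Pool.Agent.K6.H56.E6

open Matrix Pool.Agent.R895 MeasureTheory

/-- first real coordinate in the basis `1, ω` -/
noncomputable def cs (z : ℂ) : ℝ := z.re + z.im / √3

/-- second real coordinate in the basis `1, ω` -/
noncomputable def ct (z : ℂ) : ℝ := 2 * z.im / √3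

theorem eq_cs_ct (z : ℂ) : z = (cs z : ℂ) + ct z * om := by
  have h := sqrt3_pos
  apply Complex.ext
  · simp only [cs, ct, om, Complex.add_re, Complex.ofReal_re, Complex.mul_re, Complex.ofReal_im]
    field_simp
    ring
  · simp only [cs, ct, om, Complex.add_im, Complex.ofReal_im, Complex.mul_im, Complex.ofReal_re]
    field_simp
    ring

theorem cs_add (z w : ℂ) : cs (z + w) = cs z + cs w := by
  simp only [cs, Complex.add_re, Complex.add_im]; ring

theorem ct_add (z w : ℂ) : ct (z + w) = ct z + ct w := by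
  simp only [ct, Complex.add_im]; ring

theorem cs_ab (a b : ℝ) : cs (a + b * om) = a := by
  have h := sqrt3_pos
  simp only [cs, om, Complex.add_re, Complex.ofReal_re, Complex.mul_re, Complex.ofReal_im,
    Complex.add_im, Complex.mul_im]
  field_simp
  ring

theorem ct_ab (a b : ℝ) : ct (a + b * om) = b := by
  have h := sqrt3_pos
  simp only [ct, om, Complex.add_im, Complex.ofReal_im, Complex.mul_im, Complex.ofReal_re]
  field_simp
  ring

/-- the coordinates as a linear map -/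
noncomputable def cl : ℂ →ₗ[ℝ] ℂ where
  toFun z := ⟨cs z, ct z⟩
  map_add' z w := by
    apply Complex.ext
    · exact cs_add z w
    · exact ct_add z w
  map_smul' c z := by
    apply Complex.ext
    · simp [cs]; ring
    · simp [ct]; ring

theorem det_cl : LinearMap.det cl = 2 / √3 := by
  have h := sqrt3_pos
  rw [← LinearMap.det_toMatrix Complex.basisOneI, Matrix.det_fin_two]
  simp only [LinearMap.toMatrix_apply, Complex.coe_basisOneI_repr, Complex.coe_basisOneI]
  simp [cl, cs, ct]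

/-- the unit box of the coordinates -/
def F1 : Set ℂ := {z | (0 ≤ cs z ∧ cs z < 1) ∧ 0 ≤ ct z ∧ ct z < 1}

theorem measurable_cs : Measurable cs := by
  unfold cs
  exact Complex.measurable_re.add (Complex.measurable_im.div_const _)

theorem measurable_ct : Measurable ct := by
  unfold ct
  exact (Complex.measurable_im.const_mul _).div_const _

theorem measurable_F1 : MeasurableSet F1 := by
  have h1 : F1 = cs ⁻¹' Set.Ico 0 1 ∩ ct ⁻¹' Set.Ico 0 1 := by
    ext z; simp [F1]
  rw [h1]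
  exact (measurable_cs measurableSet_Ico).inter (measurable_ct measurableSet_Ico)

theorem vol_box : volume {z : ℂ | (0 ≤ z.re ∧ z.re < 1) ∧ 0 ≤ z.im ∧ z.im < 1} = 1 := by
  have h1 : {z : ℂ | (0 ≤ z.re ∧ z.re < 1) ∧ 0 ≤ z.im ∧ z.im < 1} =
      Complex.measurableEquivRealProd ⁻¹' (Set.Ico (0 : ℝ) 1 ×ˢ Set.Ico (0 : ℝ) 1) := by
    ext z; simp [Complex.measurableEquivRealProd]
  rw [h1, Complex.volume_preserving_equiv_real_prod.measure_preimage_equiv,
    Measure.volume_eq_prod, Measure.prod_prod, Real.volume_Ico]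
  simp

theorem vol_F1 : volume F1 = ENNReal.ofReal (√3 / 2) := by
  have h := sqrt3_pos
  have h1 : F1 = cl ⁻¹' {z : ℂ | (0 ≤ z.re ∧ z.re < 1) ∧ 0 ≤ z.im ∧ z.im < 1} := by
    ext z; simp [F1, cl]
  have h2 : LinearMap.det cl ≠ 0 := by rw [det_cl]; positivity
  rw [h1, Measure.addHaar_preimage_linearMap volume h2, vol_box, det_cl, mul_one, inv_div,
    abs_of_pos (by positivity)]

/-- the lattice vectors -/
def Lam (n : ℕ) : AddSubgroup (Fin n → ℂ) where
  carrier := {x | IsLat x}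
  add_mem' := fun hx hy i => (hx i).add (hy i)
  zero_mem' := fun _ => IsEis.zero
  neg_mem' := fun hx i => (hx i).neg

theorem mem_Lam {n : ℕ} {x : Fin n → ℂ} : x ∈ Lam n ↔ IsLat x := Iff.rfl

instance (n : ℕ) : Countable (Lam n) := by
  have h1 : {z : ℂ | IsEis z}.Countable := by
    have h2 : {z : ℂ | IsEis z} ⊆ Set.range fun p : ℤ × ℤ => (p.1 : ℂ) + p.2 * om := by
      rintro z ⟨a, b, rfl⟩
      exact ⟨(a, b), rfl⟩
    exact (Set.countable_range _).mono h2
  have h3 : {x : Fin n → ℂ | ∀ i, x i ∈ {z : ℂ | IsEis z}}.Countable :=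
    Set.countable_pi fun _ => h1
  exact h3.to_subtype

/-- the fundamental domain -/
def FD (n : ℕ) : Set (Fin n → ℂ) := Set.pi Set.univ fun _ => F1

theorem vol_FD (n : ℕ) : volume (FD n) = ENNReal.ofReal ((√3 / 2) ^ n) := by
  unfold FD
  rw [volume_pi_pi]
  simp only [vol_F1, Finset.prod_const, Finset.card_univ, Fintype.card_fin]
  rw [ENNReal.ofReal_pow (by positivity)]

theorem measurable_FD (n : ℕ) : MeasurableSet (FD n) :=
  MeasurableSet.univ_pi fun _ => measurable_F1

theorem isFD (n : ℕ) : IsAddFundamentalDomain (Lam n) (FD n) (volume : Measure (Fin n → ℂ)) := by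
  refine IsAddFundamentalDomain.mk' (measurable_FD n).nullMeasurableSet fun x => ?_
  refine ⟨⟨fun i => ((-⌊cs (x i)⌋ : ℤ) : ℂ) + ((-⌊ct (x i)⌋ : ℤ) : ℂ) * om,
    fun i => ⟨_, _, rfl⟩⟩, ?_, ?_⟩
  · intro i _
    have h1 : cs (((-⌊cs (x i)⌋ : ℤ) : ℂ) + ((-⌊ct (x i)⌋ : ℤ) : ℂ) * om + x i) =
        cs (x i) - ⌊cs (x i)⌋ := by
      rw [cs_add]
      have := cs_ab ((-⌊cs (x i)⌋ : ℤ) : ℝ) ((-⌊ct (x i)⌋ : ℤ) : ℝ)
      push_cast at this ⊢
      rw [this]; ring
    have h2 : ct (((-⌊cs (x i)⌋ : ℤ) : ℂ) + ((-⌊ct (x i)⌋ : ℤ) : ℂ) * om + x i) =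
        ct (x i) - ⌊ct (x i)⌋ := by
      rw [ct_add]
      have := ct_ab ((-⌊cs (x i)⌋ : ℤ) : ℝ) ((-⌊ct (x i)⌋ : ℤ) : ℝ)
      push_cast at this ⊢
      rw [this]; ring
    show (0 ≤ cs (_ + x i) ∧ cs (_ + x i) < 1) ∧ 0 ≤ ct (_ + x i) ∧ ct (_ + x i) < 1
    rw [h1, h2]
    have a1 := Int.floor_le (cs (x i))
    have a2 := Int.lt_floor_add_one (cs (x i))
    have a3 := Int.floor_le (ct (x i))
    have a4 := Int.lt_floor_add_one (ct (x i))
    refine ⟨⟨?_, ?_⟩, ?_, ?_⟩ <;> linarith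
  · rintro ⟨g, hg⟩ hgx
    apply Subtype.ext
    funext i
    obtain ⟨a, b, hab⟩ := hg i
    have h0 : g i + x i ∈ F1 := hgx i (Set.mem_univ _)
    have h1 : cs (g i + x i) = a + cs (x i) := by
      rw [cs_add, hab]
      have := cs_ab (a : ℝ) (b : ℝ)
      push_cast at this ⊢
      rw [this]
    have h2 : ct (g i + x i) = b + ct (x i) := by
      rw [ct_add, hab]
      have := ct_ab (a : ℝ) (b : ℝ)
      push_cast at this ⊢
      rw [this]
    obtain ⟨⟨b1, b2⟩, b3, b4⟩ := h0
    rw [h1] at b1 b2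
    rw [h2] at b3 b4
    have e1 : ⌊cs (x i)⌋ = -a := by
      rw [Int.floor_eq_iff]
      push_cast
      constructor <;> linarith
    have e2 : ⌊ct (x i)⌋ = -b := by
      rw [Int.floor_eq_iff]
      push_cast
      constructor <;> linarith
    show g i = _
    simp only
    rw [hab, e1, e2]
    simp

/-- PIECE B3: Blichfeldt's bound. -/
theorem blich {n : ℕ} {H : Matrix (Fin n) (Fin n) ℂ} (hH : Pd H) {h : ℝ} (hh : 0 < h)
    (hmin : ∀ w, IsLat w → w ≠ 0 → h ≤ q H w) :
    h ^ n * (Real.pi / √3) ^ n / (n + 1).factorial ≤ H.det.re := by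
  classical
  have s3 := sqrt3_pos
  obtain ⟨d, hd, hd0⟩ := hH.det_pos
  have hdre : H.det.re = d := by rw [hd, Complex.ofReal_re]
  set f : (Fin n → ℂ) → ENNReal := fun x => ENNReal.ofReal (1 - 2 * q H x / h) with hf
  have hfm : Measurable f := by
    refine ENNReal.measurable_ofReal.comp ?_
    exact (continuous_const.sub ((continuous_const.mul (continuous_q H)).div_const _)).measurable
  -- pointwise bound
  have hpt : ∀ x : Fin n → ℂ, ∑' g : Lam n, f (g +ᵥ x) ≤ 1 := by
    intro x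
    rw [ENNReal.tsum_eq_iSup_sum]
    refine iSup_le fun s => ?_
    set S : Finset (Lam n) := s.filter fun g => 0 < 1 - 2 * q H (x + (g : Fin n → ℂ)) / h with hS
    have h1 : ∑ g ∈ s, f (g +ᵥ x) = ∑ g ∈ S, f (g +ᵥ x) := by
      rw [hS, Finset.sum_filter]
      refine Finset.sum_congr rfl fun g _ => ?_
      split_ifs with hg
      · rfl
      · show ENNReal.ofReal (1 - 2 * q H ((g : Fin n → ℂ) + x) / h) = 0
        rw [add_comm, ENNReal.ofReal_eq_zero]
        exact not_lt.1 hg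
    have h2 : ∑ g ∈ S, f (g +ᵥ x) =
        ENNReal.ofReal (∑ g ∈ S, (1 - 2 * q H (x + (g : Fin n → ℂ)) / h)) := by
      rw [ENNReal.ofReal_sum_of_nonneg]
      · refine Finset.sum_congr rfl fun g _ => ?_
        show ENNReal.ofReal (1 - 2 * q H ((g : Fin n → ℂ) + x) / h) = _
        rw [add_comm (g : Fin n → ℂ) x]
      · intro g hg
        rw [hS, Finset.mem_filter] at hg
        exact hg.2.le
    set T : Finset (Fin n → ℂ) := S.image fun g : Lam n => -(g : Fin n → ℂ) with hT
    have h3 : ∑ g ∈ S, (1 - 2 * q H (x + (g : Fin n → ℂ)) / h) =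
        ∑ w ∈ T, (1 - 2 * q H (x - w) / h) := by
      rw [hT, Finset.sum_image]
      · refine Finset.sum_congr rfl fun g _ => ?_
        rw [sub_neg_eq_add]
      · intro a _ b _ hab
        exact Subtype.ext (neg_injective hab)
    rw [h1, h2, h3]
    have h4 : ∑ w ∈ T, (1 - 2 * q H (x - w) / h) ≤ 1 := by
      refine blich_point hH hh hmin x T fun w hw => ?_
      rw [hT, Finset.mem_image] at hw
      obtain ⟨g, _, rfl⟩ := hw
      exact fun i => (g.2 i).neg
    calc ENNReal.ofReal (∑ w ∈ T, (1 - 2 * q H (x - w) / h)) ≤ ENNReal.ofReal 1 :=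
          ENNReal.ofReal_le_ofReal h4
      _ = 1 := ENNReal.ofReal_one
  have h5 : ∫⁻ x : Fin n → ℂ, f x ≤ ENNReal.ofReal ((√3 / 2) ^ n) := by
    rw [(isFD n).lintegral_eq_tsum'']
    rw [← lintegral_tsum]
    · calc ∫⁻ x in FD n, ∑' g : Lam n, f (g +ᵥ x) ≤ ∫⁻ _ in FD n, 1 :=
            lintegral_mono fun x => hpt x
        _ = ENNReal.ofReal ((√3 / 2) ^ n) := by
            rw [setLIntegral_const, one_mul, vol_FD]
    · intro g
      exact (hfm.comp (measurable_const_vadd g)).aemeasurable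
  rw [hf] at h5
  rw [blich_vol hH hh, ENNReal.ofReal_le_ofReal_iff (by positivity), hdre] at h5
  rw [hdre]
  have hfac : (0 : ℝ) < (n + 1).factorial := by positivity
  rw [div_le_iff₀ (by positivity)] at h5
  rw [div_le_iff₀ hfac]
  have h6 : (h / 2) ^ n * Real.pi ^ n = (h ^ n * (Real.pi / √3) ^ n) * (√3 / 2) ^ n := by
    rw [← mul_pow, ← mul_pow, ← mul_pow]
    congr 1
    field_simp
  rw [h6] at h5
  have h7 : (0 : ℝ) < (√3 / 2) ^ n := by positivity
  nlinarith [h5, h7]

end Pool.Agent.K6.H56.E6
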