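import Pool.Agent.K6.H56.E6.Defs

/-!
# The covering bound in barycentric coordinates

Two points with barycentric coordinates `w`, `v` in the standard triangle; the pairs of vertices
are coupled with marginals `w` and `v`.
-/

set_option autoImplicit false

namespace Pool.Agent.K6.H56.E6

open Pool.Agent.R895

/-- the norm of `s + t ω` -/
def nn (s t : ℝ) : ℝ := s ^ 2 - s * t + t ^ 2

theorem nn_nonneg (s t : ℝ) : 0 ≤ nn s t := by
  unfold nn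
  nlinarith [sq_nonneg (s - t), sq_nonneg s, sq_nonneg t]

/-- the quadratic part -/
noncomputable def cr (a b w1 w2 v1 v2 : ℝ) : ℝ :=
  nn (w1 + w2 - 2 / 3) (w2 - 1 / 3) + nn (v1 + v2 - 2 / 3) (v2 - 1 / 3) -
    2 * ((a * (w1 + w2 - 2 / 3) - b * (w2 - 1 / 3)) * (v1 + v2 - 2 / 3) +
      (a * (w2 - 1 / 3) + b * (w1 + w2 - 2 / 3) - b * (w2 - 1 / 3)) * (v2 - 1 / 3) -
      ((a * (w1 + w2 - 2 / 3) - b * (w2 - 1 / 3)) * (v2 - 1 / 3) +
        (a * (w2 - 1 / 3) + b * (w1 + w2 - 2 / 3) - b * (w2 - 1 / 3)) * (v1 + v2 - 2 / 3)) / 2)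

theorem nonneg_of_mul {x y : ℝ} (hx : 0 < x) (h : 0 ≤ x * y) : 0 ≤ y := by
  by_contra hy
  push Not at hy
  have := mul_neg_of_pos_of_neg hx hy
  linarith

/-- the square completed form -/
theorem square {a b w1 w2 v1 v2 c p1 p2 : ℝ} (hD : 0 < 1 - (a - b / 2))
    (hr : 0 < 1 - (a ^ 2 - a * b + b ^ 2))
    (hc : 2 * (1 - (a - b / 2)) * nn p1 p2 ≤ (1 - (a ^ 2 - a * b + b ^ 2)) * c) :
    0 ≤ cr a b w1 w2 v1 v2 + c - ((v1 + v2 - w1 - w2) * (2 * p1 - p2) +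
      (v2 - w2) * (2 * p2 - p1)) := by
  apply nonneg_of_mul (mul_pos (mul_pos two_pos hD) hr)
  have key : 2 * (1 - (a - b / 2)) * (1 - (a ^ 2 - a * b + b ^ 2)) *
      (cr a b w1 w2 v1 v2 + c - ((v1 + v2 - w1 - w2) * (2 * p1 - p2) +
        (v2 - w2) * (2 * p2 - p1))) =
      (1 - (a ^ 2 - a * b + b ^ 2)) *
        nn ((1 - (a - b / 2)) * (-(v1 + v2 + w1 + w2 - 4 / 3)) -
            b / 2 * ((v1 + v2 - w1 - w2) - 2 * (v2 - w2)))
          ((1 - (a - b / 2)) * (-(v2 + w2 - 2 / 3)) -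
            b / 2 * (2 * (v1 + v2 - w1 - w2) - (v2 - w2))) +
      nn ((1 - (a ^ 2 - a * b + b ^ 2)) * (v1 + v2 - w1 - w2) - 2 * (1 - (a - b / 2)) * p1)
        ((1 - (a ^ 2 - a * b + b ^ 2)) * (v2 - w2) - 2 * (1 - (a - b / 2)) * p2) +
      2 * (1 - (a - b / 2)) * ((1 - (a ^ 2 - a * b + b ^ 2)) * c -
        2 * (1 - (a - b / 2)) * nn p1 p2) := by
    unfold cr nn
    ring
  rw [key]
  have h1 := mul_nonneg hr.le (nn_nonneg ((1 - (a - b / 2)) * (-(v1 + v2 + w1 + w2 - 4 / 3)) -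
            b / 2 * ((v1 + v2 - w1 - w2) - 2 * (v2 - w2)))
          ((1 - (a - b / 2)) * (-(v2 + w2 - 2 / 3)) -
            b / 2 * (2 * (v1 + v2 - w1 - w2) - (v2 - w2))))
  have h2 := nn_nonneg ((1 - (a ^ 2 - a * b + b ^ 2)) * (v1 + v2 - w1 - w2) -
    2 * (1 - (a - b / 2)) * p1) ((1 - (a ^ 2 - a * b + b ^ 2)) * (v2 - w2) -
    2 * (1 - (a - b / 2)) * p2)
  have h3 := mul_nonneg (mul_nonneg two_pos.le hD.le) (sub_nonneg.2 hc)
  linarith

/-- the square completed form with a second linear term -/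
theorem square' {a b w1 w2 v1 v2 c : ℝ} (hD : 0 < 1 - (a - b / 2))
    (hr : 0 < 1 - (a ^ 2 - a * b + b ^ 2))
    (hc : a ^ 2 * (1 - (a - b / 2)) - a * b * (2 * b - a) +
      (1 + (a - b / 2)) * (2 * b - a) ^ 2 / 3 ≤ 2 * (1 - (a ^ 2 - a * b + b ^ 2)) * c) :
    0 ≤ cr a b w1 w2 v1 v2 + c + a * ((v1 + v2 - w1 - w2) - (v2 - w2) / 2) +
      (2 * b - a) * (v2 + w2 - 2 / 3) / 2 := by
  apply nonneg_of_mul (mul_pos (mul_pos two_pos hD) hr)
  have key : 2 * (1 - (a - b / 2)) * (1 - (a ^ 2 - a * b + b ^ 2)) *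
      (cr a b w1 w2 v1 v2 + c + a * ((v1 + v2 - w1 - w2) - (v2 - w2) / 2) +
      (2 * b - a) * (v2 + w2 - 2 / 3) / 2) =
      (1 - (a ^ 2 - a * b + b ^ 2)) *
        nn ((1 - (a - b / 2)) * (-(v1 + v2 + w1 + w2 - 4 / 3)) -
            b / 2 * ((v1 + v2 - w1 - w2) - 2 * (v2 - w2)) - (2 * b - a) / 3)
          ((1 - (a - b / 2)) * (-(v2 + w2 - 2 / 3)) -
            b / 2 * (2 * (v1 + v2 - w1 - w2) - (v2 - w2)) - 2 * (2 * b - a) / 3) +
      nn ((1 - (a ^ 2 - a * b + b ^ 2)) * (v1 + v2 - w1 - w2) -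
          (-a * (1 - (a - b / 2)) + b / 2 * (2 * b - a)))
        ((1 - (a ^ 2 - a * b + b ^ 2)) * (v2 - w2)) +
      (1 - (a - b / 2)) * (2 * (1 - (a ^ 2 - a * b + b ^ 2)) * c -
        (a ^ 2 * (1 - (a - b / 2)) - a * b * (2 * b - a) +
          (1 + (a - b / 2)) * (2 * b - a) ^ 2 / 3)) := by
    unfold cr nn
    ring
  rw [key]
  have h1 := mul_nonneg hr.le (nn_nonneg ((1 - (a - b / 2)) * (-(v1 + v2 + w1 + w2 - 4 / 3)) -
            b / 2 * ((v1 + v2 - w1 - w2) - 2 * (v2 - w2)) - (2 * b - a) / 3)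
          ((1 - (a - b / 2)) * (-(v2 + w2 - 2 / 3)) -
            b / 2 * (2 * (v1 + v2 - w1 - w2) - (v2 - w2)) - 2 * (2 * b - a) / 3))
  have h2 := nn_nonneg ((1 - (a ^ 2 - a * b + b ^ 2)) * (v1 + v2 - w1 - w2) -
          (-a * (1 - (a - b / 2)) + b / 2 * (2 * b - a)))
        ((1 - (a ^ 2 - a * b + b ^ 2)) * (v2 - w2))
  have h3 := mul_nonneg hD.le (sub_nonneg.2 hc)
  linarith

section regions

variable {a b : ℝ}

theorem regA (hb : 0 ≤ b) (h2 : 2 * b ≤ a) (h1 : 2 * a - b ≤ 1) :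
    0 < 1 - (a - b / 2) ∧ 0 < 1 - (a ^ 2 - a * b + b ^ 2) ∧
      2 * (1 - (a - b / 2)) * ((a ^ 2 - a * b + b ^ 2) / 3) ≤
        (1 - (a ^ 2 - a * b + b ^ 2)) *
          (2 / 3 * (a - b / 2) - (a ^ 2 - a * b + b ^ 2) / 2) := by
  obtain ⟨p, hp⟩ : ∃ p, p = a - 2 * b := ⟨_, rfl⟩
  obtain ⟨s, hs⟩ : ∃ s, s = 1 - 2 * p - 3 * b := ⟨_, rfl⟩
  have hp0 : 0 ≤ p := by linarith
  have hs0 : 0 ≤ s := by linarith
  have ha : a = p + 2 * b := by linarith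
  refine ⟨by linarith, ?_, ?_⟩
  · have : 1 - (a ^ 2 - a * b + b ^ 2) = 3 / 4 + (s * (2 * p + 3 * b) * 2 + s ^ 2 +
        (2 * p + 3 * b) ^ 2 - 4 * (p ^ 2 + 3 * p * b + 3 * b ^ 2)) / 4 +
        0 := by
      subst ha; subst hs; ring
    nlinarith [mul_nonneg hp0 hb, mul_nonneg hs0 hp0, mul_nonneg hs0 hb, sq_nonneg s, sq_nonneg b,
      sq_nonneg p]
  · have key : (1 - (a ^ 2 - a * b + b ^ 2)) *
          (2 / 3 * (a - b / 2) - (a ^ 2 - a * b + b ^ 2) / 2) -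
        2 * (1 - (a - b / 2)) * ((a ^ 2 - a * b + b ^ 2) / 3) =
        (12 * b * s ^ 3 + 66 * b ^ 2 * s ^ 2 + 72 * b ^ 3 * s + 8 * p * s ^ 3 +
          102 * p * b * s ^ 2 + 228 * p * b ^ 2 * s + 90 * p * b ^ 3 + 34 * p ^ 2 * s ^ 2 +
          180 * p ^ 2 * b * s + 156 * p ^ 2 * b ^ 2 + 40 * p ^ 3 * s + 84 * p ^ 3 * b +
          14 * p ^ 4) / 12 := by
      subst ha; subst hs; ring
    have : 0 ≤ (12 * b * s ^ 3 + 66 * b ^ 2 * s ^ 2 + 72 * b ^ 3 * s + 8 * p * s ^ 3 +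
          102 * p * b * s ^ 2 + 228 * p * b ^ 2 * s + 90 * p * b ^ 3 + 34 * p ^ 2 * s ^ 2 +
          180 * p ^ 2 * b * s + 156 * p ^ 2 * b ^ 2 + 40 * p ^ 3 * s + 84 * p ^ 3 * b +
          14 * p ^ 4) / 12 := by positivity
    linarith

theorem regF (hba : b ≤ a) (h2 : a ≤ 2 * b) (h1 : a + b ≤ 1) :
    0 < 1 - (a - b / 2) ∧ 0 < 1 - (a ^ 2 - a * b + b ^ 2) ∧
      2 * (1 - (a - b / 2)) * (a - b) ^ 2 ≤
        (1 - (a ^ 2 - a * b + b ^ 2)) *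
          (2 / 3 * (a - b / 2) - (a ^ 2 - a * b + b ^ 2) / 2) ∧
      a ^ 2 * (1 - (a - b / 2)) - a * b * (2 * b - a) +
        (1 + (a - b / 2)) * (2 * b - a) ^ 2 / 3 ≤
          2 * (1 - (a ^ 2 - a * b + b ^ 2)) * ((a + b) / 3 - (a ^ 2 - a * b + b ^ 2) / 2) := by
  obtain ⟨p, hp⟩ : ∃ p, p = 2 * b - a := ⟨_, rfl⟩
  obtain ⟨t, ht⟩ : ∃ t, t = a - b := ⟨_, rfl⟩
  obtain ⟨s, hs⟩ : ∃ s, s = 1 - 2 * p - 3 * t := ⟨_, rfl⟩
  have hp0 : 0 ≤ p := by linarith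
  have ht0 : 0 ≤ t := by linarith
  have hs0 : 0 ≤ s := by linarith
  have ha : a = p + 2 * t := by linarith
  have hb : b = p + t := by linarith
  refine ⟨by linarith, ?_, ?_, ?_⟩
  · have : 1 - (a ^ 2 - a * b + b ^ 2) = s ^ 2 + 2 * s * (2 * p + 3 * t) +
        (3 * p ^ 2 + 9 * p * t + 6 * t ^ 2) := by
      subst ha; subst hb; subst hs; ring
    rw [this]
    by_contra hcon
    push Not at hcon
    nlinarith [mul_nonneg hp0 ht0, mul_nonneg hs0 hp0, mul_nonneg hs0 ht0, sq_nonneg s,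
      sq_nonneg t, sq_nonneg p]
  · have key : (1 - (a ^ 2 - a * b + b ^ 2)) *
          (2 / 3 * (a - b / 2) - (a ^ 2 - a * b + b ^ 2) / 2) -
        2 * (1 - (a - b / 2)) * (a - b) ^ 2 =
        (6 * t * s ^ 3 + 33 * t ^ 2 * s ^ 2 + 36 * t ^ 3 * s + 2 * p * s ^ 3 +
          45 * p * t * s ^ 2 + 114 * p * t ^ 2 * s + 45 * p * t ^ 3 + 9 * p ^ 2 * s ^ 2 +
          78 * p ^ 2 * t * s + 78 * p ^ 2 * t ^ 2 + 10 * p ^ 3 * s + 36 * p ^ 3 * t +
          3 * p ^ 4) / 6 := by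
      subst ha; subst hb; subst hs; ring
    have : 0 ≤ (6 * t * s ^ 3 + 33 * t ^ 2 * s ^ 2 + 36 * t ^ 3 * s + 2 * p * s ^ 3 +
          45 * p * t * s ^ 2 + 114 * p * t ^ 2 * s + 45 * p * t ^ 3 + 9 * p ^ 2 * s ^ 2 +
          78 * p ^ 2 * t * s + 78 * p ^ 2 * t ^ 2 + 10 * p ^ 3 * s + 36 * p ^ 3 * t +
          3 * p ^ 4) / 6 := by positivity
    linarith
  · have key : 2 * (1 - (a ^ 2 - a * b + b ^ 2)) * ((a + b) / 3 - (a ^ 2 - a * b + b ^ 2) / 2) -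
        (a ^ 2 * (1 - (a - b / 2)) - a * b * (2 * b - a) +
        (1 + (a - b / 2)) * (2 * b - a) ^ 2 / 3) =
        (12 * t * s ^ 3 + 66 * t ^ 2 * s ^ 2 + 72 * t ^ 3 * s + 8 * p * s ^ 3 +
          102 * p * t * s ^ 2 + 228 * p * t ^ 2 * s + 90 * p * t ^ 3 + 34 * p ^ 2 * s ^ 2 +
          180 * p ^ 2 * t * s + 156 * p ^ 2 * t ^ 2 + 40 * p ^ 3 * s + 84 * p ^ 3 * t +
          14 * p ^ 4) / 6 := by
      subst ha; subst hb; subst hs; ring
    have : 0 ≤ (12 * t * s ^ 3 + 66 * t ^ 2 * s ^ 2 + 72 * t ^ 3 * s + 8 * p * s ^ 3 +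
          102 * p * t * s ^ 2 + 228 * p * t ^ 2 * s + 90 * p * t ^ 3 + 34 * p ^ 2 * s ^ 2 +
          180 * p ^ 2 * t * s + 156 * p ^ 2 * t ^ 2 + 40 * p ^ 3 * s + 84 * p ^ 3 * t +
          14 * p ^ 4) / 6 := by positivity
    linarith

end regions

/-! ### couplings -/

theorem of_coupling {R : ℝ} (f G : Fin 3 → Fin 3 → ℝ) (hG : ∀ j k, 0 ≤ G j k)
    (hs : ∑ j, ∑ k, G j k = 1) (h : ∑ j, ∑ k, G j k * f j k ≤ R) : ∃ j k, f j k ≤ R := by
  by_contra hcon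
  push Not at hcon
  have h2 : ∀ j k, 0 ≤ G j k * (f j k - R) := fun j k =>
    mul_nonneg (hG j k) (by linarith [hcon j k])
  have h3 : ∑ j, ∑ k, G j k * (f j k - R) ≤ 0 := by
    have e : ∑ j, ∑ k, G j k * (f j k - R) = ∑ j, ∑ k, G j k * f j k - (∑ j, ∑ k, G j k) * R := by
      simp only [Fin.sum_univ_three]
      ring
    rw [e, hs, one_mul]
    linarith
  have h4 : ∀ j k, G j k * (f j k - R) = 0 := by
    have h5 : ∑ j, ∑ k, G j k * (f j k - R) = 0 :=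
      le_antisymm h3 (Finset.sum_nonneg fun j _ => Finset.sum_nonneg fun k _ => h2 j k)
    rw [Finset.sum_eq_zero_iff_of_nonneg (fun j _ => Finset.sum_nonneg fun k _ => h2 j k)] at h5
    intro j k
    have h6 := h5 j (Finset.mem_univ _)
    rw [Finset.sum_eq_zero_iff_of_nonneg (fun k _ => h2 j k)] at h6
    exact h6 k (Finset.mem_univ _)
  have h5 : ∀ j k, G j k = 0 := by
    intro j k
    rcases mul_eq_zero.1 (h4 j k) with h | h
    · exact h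
    · exact absurd h (by have := hcon j k; linarith)
  simp [h5] at hs

/-- the value of a pair of vertices in coordinates -/
noncomputable def fv (x : ℂ) (μ : ℝ) (w v : Fin 3 → ℝ) (j k : Fin 3) : ℝ :=
  Complex.normSq (dv v k - x * dv w j) + μ * Complex.normSq (dv w j)

def cvs (j : Fin 3) : ℝ := ![0, 1, 1] j
def cvt (j : Fin 3) : ℝ := ![0, 0, 1] j

theorem dv_eq (w : Fin 3 → ℝ) (j : Fin 3) :
    dv w j = ((w 1 + w 2 - cvs j : ℝ) : ℂ) + ((w 2 - cvt j : ℝ) : ℂ) * om := by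
  unfold dv cv cvs cvt
  rw [Fin.sum_univ_three]
  fin_cases j <;> simp <;> ring

theorem fv_eq (a b μ : ℝ) (w v : Fin 3 → ℝ) (j k : Fin 3) :
    fv ((a : ℂ) + b * om) μ w v j k =
      nn ((v 1 + v 2 - cvs k) - (a * (w 1 + w 2 - cvs j) - b * (w 2 - cvt j)))
        ((v 2 - cvt k) - (a * (w 2 - cvt j) + b * (w 1 + w 2 - cvs j) - b * (w 2 - cvt j))) +
      μ * nn (w 1 + w 2 - cvs j) (w 2 - cvt j) := by
  unfold fv nn
  rw [dv_eq, dv_eq]
  have e : ((v 1 + v 2 - cvs k : ℝ) : ℂ) + ((v 2 - cvt k : ℝ) : ℂ) * om -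
      ((a : ℂ) + b * om) * (((w 1 + w 2 - cvs j : ℝ) : ℂ) + ((w 2 - cvt j : ℝ) : ℂ) * om) =
      (((v 1 + v 2 - cvs k) - (a * (w 1 + w 2 - cvs j) - b * (w 2 - cvt j)) : ℝ) : ℂ) +
      (((v 2 - cvt k) - (a * (w 2 - cvt j) + b * (w 1 + w 2 - cvs j) - b * (w 2 - cvt j)) : ℝ) : ℂ) *
        om := by
    have h := om_sq
    push_cast
    linear_combination (-(b : ℂ) * ((w 2 : ℂ) - cvt j)) * h
  rw [e, normSq_ab, normSq_ab]

theorem sum_formula (a b μ : ℝ) {w v : Fin 3 → ℝ} (G : Fin 3 → Fin 3 → ℝ)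
    (hr : ∀ j, ∑ k, G j k = w j) (hc : ∀ k, ∑ j, G j k = v k) (hw : ∑ i, w i = 1) :
    ∑ j, ∑ k, G j k * fv ((a : ℂ) + b * om) μ w v j k =
      1 / 6 + μ / 2 - (μ - (1 - (a ^ 2 - a * b + b ^ 2))) *
        (1 / 2 - ((1 - w 1 - w 2) * (w 1 + w 2) + w 1 * w 2)) -
      (cr a b (w 1) (w 2) (v 1) (v 2) + (2 / 3 * (a - b / 2) - (a ^ 2 - a * b + b ^ 2) / 2) -
        (a - b) * (G 0 1 + G 1 2 + G 2 0) - a * (G 0 2 + G 1 0 + G 2 1)) := by
  have r0 := hr 0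
  have r1 := hr 1
  have r2 := hr 2
  have c1 := hc 1
  have c2 := hc 2
  rw [Fin.sum_univ_three] at r0 r1 r2 c1 c2 hw
  simp only [Fin.sum_univ_three, fv_eq, cvs, cvt, nn, cr]
  rw [← c1, ← c2]
  simp only [Matrix.cons_val_zero, Matrix.cons_val_one, Matrix.cons_val]
  have e0 : G 0 0 = (1 - w 1 - w 2) - G 0 1 - G 0 2 := by linarith
  have e1 : G 1 1 = w 1 - G 1 0 - G 1 2 := by linarith
  have e2 : G 2 2 = w 2 - G 2 0 - G 2 1 := by linarith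
  rw [e0, e1, e2]
  ring

theorem pw_le {w1 w2 : ℝ} : (1 - w1 - w2) * (w1 + w2) + w1 * w2 ≤ 1 / 3 := by
  nlinarith [sq_nonneg (w1 - w2), sq_nonneg (1 - w1 - w2 - w1), sq_nonneg (1 - w1 - w2 - w2)]

theorem near_of {a b μ : ℝ} (hμ : 1 - (a ^ 2 - a * b + b ^ 2) ≤ μ) {w v : Fin 3 → ℝ}
    (hw : ∑ i, w i = 1) (G : Fin 3 → Fin 3 → ℝ) (hG : ∀ j k, 0 ≤ G j k)
    (hr : ∀ j, ∑ k, G j k = w j) (hc : ∀ k, ∑ j, G j k = v k)
    (h : (a - b) * (G 0 1 + G 1 2 + G 2 0) + a * (G 0 2 + G 1 0 + G 2 1) ≤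
      cr a b (w 1) (w 2) (v 1) (v 2) + (2 / 3 * (a - b / 2) - (a ^ 2 - a * b + b ^ 2) / 2)) :
    ∃ j k, fv ((a : ℂ) + b * om) μ w v j k ≤ 1 / 6 + μ / 2 := by
  refine of_coupling _ G hG ?_ ?_
  · rw [Finset.sum_congr rfl fun j _ => hr j, hw]
  · rw [sum_formula a b μ G hr hc hw]
    have h1 := mul_nonneg (sub_nonneg.2 hμ) (show (0 : ℝ) ≤ 1 / 2 -
      ((1 - w 1 - w 2) * (w 1 + w 2) + w 1 * w 2) by
        have := pw_le (w1 := w 1) (w2 := w 2)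
        linarith)
    linarith

section patterns

variable {a b μ : ℝ} (hμ : 1 - (a ^ 2 - a * b + b ^ 2) ≤ μ) {w v : Fin 3 → ℝ}
  (hw0 : ∀ i, 0 ≤ w i) (hv0 : ∀ i, 0 ≤ v i) (hw : ∑ i, w i = 1) (hv : ∑ i, v i = 1)

include hμ hw0 hv0 hw hv

/-- one excess -/
theorem patA1 (hb : 0 ≤ b) (h2 : 2 * b ≤ a) (h1 : 2 * a - b ≤ 1) (e1 : w 1 ≤ v 1)
    (e2 : w 2 ≤ v 2) : ∃ j k, fv ((a : ℂ) + b * om) μ w v j k ≤ 1 / 6 + μ / 2 := by
  have sw := hw
  have sv := hv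
  rw [Fin.sum_univ_three] at sw sv
  have w0 := hw0 0
  have w1 := hw0 1
  have w2 := hw0 2
  have v0 := hv0 0
  refine near_of hμ hw ![![v 0, v 1 - w 1, v 2 - w 2], ![0, w 1, 0], ![0, 0, w 2]] ?_ ?_ ?_ ?_
  · intro j k
    fin_cases j <;> fin_cases k <;> simp <;> linarith
  · intro j
    fin_cases j <;> simp [Fin.sum_univ_three]
    linarith
  · intro k
    fin_cases k <;> simp [Fin.sum_univ_three]
  · obtain ⟨hD, hr, hc⟩ := regA hb h2 h1
    have h := square (w1 := w 1) (w2 := w 2) (v1 := v 1) (v2 := v 2)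
      (p1 := (2 * a - b) / 3) (p2 := (a + b) / 3) hD hr (c := 2 / 3 * (a - b / 2) -
        (a ^ 2 - a * b + b ^ 2) / 2) (by
        refine le_trans (le_of_eq ?_) hc
        unfold nn
        ring)
    simp
    linarith

/-- one deficit -/
theorem patA2 (hb : 0 ≤ b) (h2 : 2 * b ≤ a) (h1 : 2 * a - b ≤ 1) (e1 : v 1 ≤ w 1)
    (e2 : v 2 ≤ w 2) : ∃ j k, fv ((a : ℂ) + b * om) μ w v j k ≤ 1 / 6 + μ / 2 := by
  have sw := hw
  have sv := hv
  rw [Fin.sum_univ_three] at sw sv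
  have w0 := hw0 0
  have v1 := hv0 1
  have v2 := hv0 2
  refine near_of hμ hw ![![w 0, 0, 0], ![w 1 - v 1, v 1, 0], ![w 2 - v 2, 0, v 2]] ?_ ?_ ?_ ?_
  · intro j k
    fin_cases j <;> fin_cases k <;> simp <;> linarith
  · intro j
    fin_cases j <;> simp [Fin.sum_univ_three]
  · intro k
    fin_cases k <;> simp [Fin.sum_univ_three]
    linarith
  · obtain ⟨hD, hr, hc⟩ := regA hb h2 h1
    have h := square (w1 := w 1) (w2 := w 2) (v1 := v 1) (v2 := v 2)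
      (p1 := (-2 * a + b) / 3) (p2 := (2 * b - a) / 3) hD hr (c := 2 / 3 * (a - b / 2) -
        (a ^ 2 - a * b + b ^ 2) / 2) (by
        refine le_trans (le_of_eq ?_) hc
        unfold nn
        ring)
    simp
    linarith

/-- two steps -/
theorem patF (hba : b ≤ a) (h2 : a ≤ 2 * b) (h1 : a + b ≤ 1) (e0 : w 0 ≤ v 0)
    (e1 : v 1 ≤ w 1) (hf : w 1 + v 0 ≤ 1) :
    ∃ j k, fv ((a : ℂ) + b * om) μ w v j k ≤ 1 / 6 + μ / 2 := by
  have sw := hw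
  have sv := hv
  rw [Fin.sum_univ_three] at sw sv
  have w0 := hw0 0
  have v1 := hv0 1
  refine near_of hμ hw
    ![![w 0, 0, 0], ![0, v 1, w 1 - v 1], ![v 0 - w 0, 0, 1 - w 1 - v 0]] ?_ ?_ ?_ ?_
  · intro j k
    fin_cases j <;> fin_cases k <;> simp <;> linarith
  · intro j
    fin_cases j <;> simp [Fin.sum_univ_three]
    linarith
  · intro k
    fin_cases k <;> simp [Fin.sum_univ_three]
    linarith
  · obtain ⟨hD, hr, hc, -⟩ := regF hba h2 h1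
    have h := square (w1 := w 1) (w2 := w 2) (v1 := v 1) (v2 := v 2)
      (p1 := -(a - b)) (p2 := 0) hD hr (c := 2 / 3 * (a - b / 2) -
        (a ^ 2 - a * b + b ^ 2) / 2) (by
        refine le_trans (le_of_eq ?_) hc
        unfold nn
        ring)
    have e3 : v 0 = 1 - v 1 - v 2 := by linarith
    have e4 : w 0 = 1 - w 1 - w 2 := by linarith
    simp
    rw [e3, e4]
    linarith

/-- two steps, degenerate -/
theorem patI (hba : b ≤ a) (h2 : a ≤ 2 * b) (h1 : a + b ≤ 1) (hf : 1 ≤ w 1 + v 0) :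
    ∃ j k, fv ((a : ℂ) + b * om) μ w v j k ≤ 1 / 6 + μ / 2 := by
  have sw := hw
  have sv := hv
  rw [Fin.sum_univ_three] at sw sv
  have w0 := hw0 0
  have w2 := hw0 2
  have v1 := hv0 1
  have v2 := hv0 2
  refine near_of hμ hw
    ![![w 0, 0, 0], ![w 1 + v 0 - 1, v 1, v 2], ![w 2, 0, 0]] ?_ ?_ ?_ ?_
  · intro j k
    fin_cases j <;> fin_cases k <;> simp <;> linarith
  · intro j
    fin_cases j <;> simp [Fin.sum_univ_three]
    linarith
  · intro k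
    fin_cases k <;> simp [Fin.sum_univ_three]
    linarith
  · obtain ⟨hD, hr, -, hc⟩ := regF hba h2 h1
    have h := square' (w1 := w 1) (w2 := w 2) (v1 := v 1) (v2 := v 2) hD hr hc
    have e3 : v 0 = 1 - v 1 - v 2 := by linarith
    simp
    rw [e3]
    linarith

end patterns

/-! ### cyclic symmetry -/

theorem dv_shift {w : Fin 3 → ℝ} (hw : ∑ i, w i = 1) (j : Fin 3) :
    om * dv (fun i => w (i + 1)) j = dv w (j + 1) := by
  rw [Fin.sum_univ_three] at hw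
  have hw' : (w 0 : ℂ) = 1 - w 1 - w 2 := by
    have : w 0 = 1 - w 1 - w 2 := by linarith
    rw [this]; push_cast; ring
  have h := om_sq
  unfold dv cv
  rw [Fin.sum_univ_three, Fin.sum_univ_three]
  fin_cases j
  · simp
    rw [hw']
    linear_combination (1 - (w 1 : ℂ) - w 2) * h
  · simp
    rw [hw']
    linear_combination (1 - (w 1 : ℂ) - w 2) * h
  · simp
    rw [hw']
    linear_combination (1 - (w 1 : ℂ) - w 2) * h - h

theorem ex_shift {x : ℂ} {μ R : ℝ} {w v : Fin 3 → ℝ} (hw : ∑ i, w i = 1) (hv : ∑ i, v i = 1)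
    (h : ∃ j k, fv x μ (fun i => w (i + 1)) (fun i => v (i + 1)) j k ≤ R) :
    ∃ j k, fv x μ w v j k ≤ R := by
  obtain ⟨j, k, h⟩ := h
  refine ⟨j + 1, k + 1, le_trans (le_of_eq ?_) h⟩
  have hom : Complex.normSq om = 1 := by
    have h4 := normSq_ab 0 1
    rw [Complex.ofReal_zero, Complex.ofReal_one, zero_add, one_mul] at h4
    rw [h4]; norm_num
  unfold fv
  rw [← dv_shift hw, ← dv_shift hv]
  have e : om * dv (fun i => v (i + 1)) k - x * (om * dv (fun i => w (i + 1)) j) =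
      om * (dv (fun i => v (i + 1)) k - x * dv (fun i => w (i + 1)) j) := by ring
  rw [e, Complex.normSq_mul, Complex.normSq_mul, hom, one_mul, one_mul]

theorem sum_shift (w : Fin 3 → ℝ) : ∑ i : Fin 3, w (i + 1) = ∑ i, w i := by
  rw [Fin.sum_univ_three, Fin.sum_univ_three]
  simp
  ring

/-- **The covering bound in a sector.** -/
theorem near_core (a b μ : ℝ) (hb : 0 ≤ b) (hba : b ≤ a) (h1 : 2 * a - b ≤ 1)
    (h2 : a + b ≤ 1) (hμ : 1 - (a ^ 2 - a * b + b ^ 2) ≤ μ) : Near ((a : ℂ) + b * om) μ := by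
  intro w v hw0 hv0 hw hv
  change ∃ j k, fv ((a : ℂ) + b * om) μ w v j k ≤ 1 / 6 + μ / 2
  have hw' : ∑ i : Fin 3, w (i + 1) = 1 := by rw [sum_shift, hw]
  have hv' : ∑ i : Fin 3, v (i + 1) = 1 := by rw [sum_shift, hv]
  have hw'' : ∑ i : Fin 3, w (i + 1 + 1) = 1 := by
    rw [sum_shift (fun i => w (i + 1)), hw']
  have hv'' : ∑ i : Fin 3, v (i + 1 + 1) = 1 := by
    rw [sum_shift (fun i => v (i + 1)), hv']
  have sw := hw
  have sv := hv
  rw [Fin.sum_univ_three] at sw sv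
  rcases le_total (2 * b) a with hA | hA
  · -- the first region
    rcases le_total (w 0) (v 0) with c0 | c0 <;> rcases le_total (w 1) (v 1) with c1 | c1 <;>
      rcases le_total (w 2) (v 2) with c2 | c2
    · exact patA1 hμ hw0 hv0 hw hv hb hA h1 c1 c2
    · -- excess at 2
      refine ex_shift hw hv (ex_shift (w := fun i => w (i + 1)) (v := fun i => v (i + 1)) hw' hv' ?_)
      exact patA1 hμ (fun i => hw0 _) (fun i => hv0 _) hw'' hv'' hb hA h1 c0 c1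
    · -- excess at 1
      refine ex_shift hw hv ?_
      exact patA1 hμ (fun i => hw0 _) (fun i => hv0 _) hw' hv' hb hA h1 c2 c0
    · -- deficit at 0
      exact patA2 hμ hw0 hv0 hw hv hb hA h1 c1 c2
    · exact patA1 hμ hw0 hv0 hw hv hb hA h1 c1 c2
    · -- deficit at 1
      refine ex_shift hw hv ?_
      exact patA2 hμ (fun i => hw0 _) (fun i => hv0 _) hw' hv' hb hA h1 c2 c0
    · -- deficit at 2
      refine ex_shift hw hv (ex_shift (w := fun i => w (i + 1)) (v := fun i => v (i + 1)) hw' hv' ?_)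
      exact patA2 hμ (fun i => hw0 _) (fun i => hv0 _) hw'' hv'' hb hA h1 c0 c1
    · exact patA2 hμ hw0 hv0 hw hv hb hA h1 c1 c2
  · -- the second region
    have step : ∀ w v : Fin 3 → ℝ, (∀ i, 0 ≤ w i) → (∀ i, 0 ≤ v i) → ∑ i, w i = 1 →
        ∑ i, v i = 1 → w 0 ≤ v 0 → v 1 ≤ w 1 →
        ∃ j k, fv ((a : ℂ) + b * om) μ w v j k ≤ 1 / 6 + μ / 2 := by
      intro w v hw0 hv0 hw hv e0 e1
      rcases le_total (w 1 + v 0) 1 with hf | hf
      · exact patF hμ hw0 hv0 hw hv hba hA h2 e0 e1 hf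
      · exact patI hμ hw0 hv0 hw hv hba hA h2 hf
    by_cases k0 : w 0 ≤ v 0 ∧ v 1 ≤ w 1
    · exact step w v hw0 hv0 hw hv k0.1 k0.2
    · by_cases k1 : w 1 ≤ v 1 ∧ v 2 ≤ w 2
      · refine ex_shift hw hv ?_
        exact step _ _ (fun i => hw0 _) (fun i => hv0 _) hw' hv' k1.1 k1.2
      · have k2 : w 2 ≤ v 2 ∧ v 0 ≤ w 0 := by
          by_contra k2
          rw [not_and_or, not_le, not_le] at k0 k1 k2
          rcases k0 with k0 | k0 <;> rcases k1 with k1 | k1 <;> rcases k2 with k2 | k2 <;> linarith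
        refine ex_shift hw hv (ex_shift (w := fun i => w (i + 1)) (v := fun i => v (i + 1))
          hw' hv' ?_)
        exact step _ _ (fun i => hw0 _) (fun i => hv0 _) hw'' hv'' k2.1 k2.2

end Pool.Agent.K6.H56.E6
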