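import Pool.Agent.K6.H56.E6.Defs

/-!
# Piece C2: reduction of the covering bound to a triangle and a sector
-/

set_option autoImplicit false

namespace Pool.Agent.K6.H56.E6

open Pool.Agent.R895

theorem c2_cv0 : cv 0 = 0 := rfl

theorem c2_cv1 : cv 1 = 1 := rfl

theorem c2_cv2 : cv 2 = 1 + om := rfl

theorem c2_dv0 (w : Fin 3 → ℝ) (_hw : ∑ i, w i = 1) :
    dv w 0 = ((w 1 + w 2 : ℝ) : ℂ) + ((w 2 : ℝ) : ℂ) * om := by
  rw [dv, Fin.sum_univ_three, c2_cv0, c2_cv1, c2_cv2]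
  push_cast
  ring

theorem c2_dv1 (w : Fin 3 → ℝ) (hw : ∑ i, w i = 1) :
    dv w 1 = ((- w 0 : ℝ) : ℂ) + ((w 2 : ℝ) : ℂ) * om := by
  have h : (w 0 : ℂ) = 1 - w 1 - w 2 := by
    rw [Fin.sum_univ_three] at hw
    have : w 0 = 1 - w 1 - w 2 := by linarith
    rw [this]; push_cast; ring
  rw [dv, Fin.sum_univ_three, c2_cv0, c2_cv1, c2_cv2]
  push_cast
  rw [h]
  ring

theorem c2_dv2 (w : Fin 3 → ℝ) (hw : ∑ i, w i = 1) :
    dv w 2 = ((- w 0 : ℝ) : ℂ) + ((- w 0 - w 1 : ℝ) : ℂ) * om := by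
  have h : (w 0 : ℂ) = 1 - w 1 - w 2 := by
    rw [Fin.sum_univ_three] at hw
    have : w 0 = 1 - w 1 - w 2 := by linarith
    rw [this]; push_cast; ring
  rw [dv, Fin.sum_univ_three, c2_cv0, c2_cv1, c2_cv2]
  push_cast
  rw [h]
  ring

theorem c2_om2 : om ^ 2 = -1 - om := by rw [pow_two, om_sq]

theorem c2_normSq_om : Complex.normSq om = 1 := by
  have := normSq_ab 0 1
  simpa using this

/-- rotation of barycentric coordinates -/
noncomputable def rotw (w : Fin 3 → ℝ) : Fin 3 → ℝ := ![w 2, w 0, w 1]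

theorem c2_rot_nonneg (w : Fin 3 → ℝ) (h : ∀ i, 0 ≤ w i) : ∀ i, 0 ≤ rotw w i := by
  intro i
  fin_cases i
  · exact h 2
  · exact h 0
  · exact h 1

theorem c2_rot_sum (w : Fin 3 → ℝ) : ∑ i, rotw w i = ∑ i, w i := by
  rw [Fin.sum_univ_three, Fin.sum_univ_three]
  show w 2 + w 0 + w 1 = _
  ring

theorem c2_rot_dv (w : Fin 3 → ℝ) (hw : ∑ i, w i = 1) (j : Fin 3) :
    ∃ j' : Fin 3, dv (rotw w) j = om * dv w j' := by
  have hw' : ∑ i, rotw w i = 1 := by rw [c2_rot_sum]; exact hw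
  have h : (w 0 : ℂ) = 1 - w 1 - w 2 := by
    rw [Fin.sum_univ_three] at hw
    have : w 0 = 1 - w 1 - w 2 := by linarith
    rw [this]; push_cast; ring
  have r0 : rotw w 0 = w 2 := rfl
  have r1 : rotw w 1 = w 0 := rfl
  have r2 : rotw w 2 = w 1 := rfl
  have hom := om_sq
  fin_cases j
  · refine ⟨2, ?_⟩
    show dv (rotw w) 0 = _
    rw [c2_dv0 _ hw', c2_dv2 _ hw, r1, r2]
    push_cast
    linear_combination ((w 0 : ℂ) + w 1) * hom
  · refine ⟨0, ?_⟩
    show dv (rotw w) 1 = _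
    rw [c2_dv1 _ hw', c2_dv0 _ hw, r0, r2]
    push_cast
    linear_combination (-(w 2 : ℂ)) * hom
  · refine ⟨1, ?_⟩
    show dv (rotw w) 2 = _
    rw [c2_dv2 _ hw', c2_dv1 _ hw, r0, r1]
    push_cast
    linear_combination (-(w 2 : ℂ)) * hom

theorem near_om {x : ℂ} {μ : ℝ} (h : Near x μ) : Near (x * om) μ := by
  intro w v hw hv hws hvs
  obtain ⟨j, k, hjk⟩ := h (rotw w) v (c2_rot_nonneg w hw) hv (by rw [c2_rot_sum, hws]) hvs
  obtain ⟨j', hj'⟩ := c2_rot_dv w hws j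
  refine ⟨j', k, ?_⟩
  rw [hj'] at hjk
  rw [Complex.normSq_mul om, c2_normSq_om, one_mul] at hjk
  rw [mul_assoc]
  exact hjk

/-- reflection of barycentric coordinates -/
noncomputable def refw (w : Fin 3 → ℝ) : Fin 3 → ℝ := ![w 1, w 0, w 2]

theorem c2_ref_nonneg (w : Fin 3 → ℝ) (h : ∀ i, 0 ≤ w i) : ∀ i, 0 ≤ refw w i := by
  intro i
  fin_cases i
  · exact h 1
  · exact h 0
  · exact h 2

theorem c2_ref_sum (w : Fin 3 → ℝ) : ∑ i, refw w i = ∑ i, w i := by
  rw [Fin.sum_univ_three, Fin.sum_univ_three]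
  show w 1 + w 0 + w 2 = _
  ring

theorem c2_ref_dv (w : Fin 3 → ℝ) (hw : ∑ i, w i = 1) (j : Fin 3) :
    ∃ j' : Fin 3, dv (refw w) j = - (starRingEnd ℂ) (dv w j') := by
  have hw' : ∑ i, refw w i = 1 := by rw [c2_ref_sum]; exact hw
  have h : (w 0 : ℂ) = 1 - w 1 - w 2 := by
    rw [Fin.sum_univ_three] at hw
    have : w 0 = 1 - w 1 - w 2 := by linarith
    rw [this]; push_cast; ring
  have r0 : refw w 0 = w 1 := rfl
  have r1 : refw w 1 = w 0 := rfl
  have r2 : refw w 2 = w 2 := rfl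
  fin_cases j
  · refine ⟨1, ?_⟩
    show dv (refw w) 0 = _
    rw [c2_dv0 _ hw', c2_dv1 _ hw, r1, r2]
    simp only [map_add, map_mul, conj_om, Complex.conj_ofReal]
    push_cast
    ring
  · refine ⟨0, ?_⟩
    show dv (refw w) 1 = _
    rw [c2_dv1 _ hw', c2_dv0 _ hw, r0, r2]
    simp only [map_add, map_mul, conj_om, Complex.conj_ofReal]
    push_cast
    ring
  · refine ⟨2, ?_⟩
    show dv (refw w) 2 = _
    rw [c2_dv2 _ hw', c2_dv2 _ hw, r0, r1]
    simp only [map_add, map_mul, conj_om, Complex.conj_ofReal]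
    push_cast
    ring

theorem near_conj {x : ℂ} {μ : ℝ} (h : Near x μ) : Near ((starRingEnd ℂ) x) μ := by
  intro w v hw hv hws hvs
  obtain ⟨j, k, hjk⟩ := h (refw w) (refw v) (c2_ref_nonneg w hw) (c2_ref_nonneg v hv)
    (by rw [c2_ref_sum, hws]) (by rw [c2_ref_sum, hvs])
  obtain ⟨j', hj'⟩ := c2_ref_dv w hws j
  obtain ⟨k', hk'⟩ := c2_ref_dv v hvs k
  refine ⟨j', k', ?_⟩
  rw [hj', hk'] at hjk
  have e1 : -(starRingEnd ℂ) (dv v k') - x * -(starRingEnd ℂ) (dv w j')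
      = - (starRingEnd ℂ) (dv v k' - (starRingEnd ℂ) x * dv w j') := by
    rw [map_sub, map_mul, Complex.conj_conj]
    ring
  rw [e1, Complex.normSq_neg, Complex.normSq_neg, Complex.normSq_conj, Complex.normSq_conj] at hjk
  exact hjk

/-- decomposition of a complex number -/
theorem c2_decomp (z : ℂ) : ∃ (A : ℂ) (s : ℝ) (w : Fin 3 → ℝ), IsEis A ∧ (s = 1 ∨ s = -1) ∧
    (∀ i, 0 ≤ w i) ∧ ∑ i, w i = 1 ∧ z = A + s * ∑ i, (w i : ℂ) * cv i := by
  obtain ⟨x, y, rfl⟩ := exists_coord z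
  have hx : x = ⌊x⌋ + Int.fract x := (Int.floor_add_fract x).symm
  have hy : y = ⌊y⌋ + Int.fract y := (Int.floor_add_fract y).symm
  have hx' : (x : ℂ) = (⌊x⌋ : ℂ) + ((Int.fract x : ℝ) : ℂ) := by
    conv_lhs => rw [hx]
    push_cast
    rfl
  have hy' : (y : ℂ) = (⌊y⌋ : ℂ) + ((Int.fract y : ℝ) : ℂ) := by
    conv_lhs => rw [hy]
    push_cast
    rfl
  have hu0 := Int.fract_nonneg x
  have hu1 := (Int.fract_lt_one x).le
  have hv0 := Int.fract_nonneg y
  have hv1 := (Int.fract_lt_one y).le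
  rcases le_total (Int.fract y) (Int.fract x) with h | h
  · refine ⟨(⌊x⌋ : ℂ) + (⌊y⌋ : ℂ) * om, 1,
      ![1 - Int.fract x, Int.fract x - Int.fract y, Int.fract y], ⟨⌊x⌋, ⌊y⌋, rfl⟩, Or.inl rfl,
      ?_, ?_, ?_⟩
    · intro i
      fin_cases i
      · show 0 ≤ 1 - Int.fract x; linarith
      · show 0 ≤ Int.fract x - Int.fract y; linarith
      · show 0 ≤ Int.fract y; exact hv0
    · rw [Fin.sum_univ_three]
      show 1 - Int.fract x + (Int.fract x - Int.fract y) + Int.fract y = 1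
      ring
    · rw [Fin.sum_univ_three, c2_cv0, c2_cv1, c2_cv2]
      show (x : ℂ) + y * om = _ + ((1 : ℝ) : ℂ) * (((1 - Int.fract x : ℝ) : ℂ) * 0 +
        ((Int.fract x - Int.fract y : ℝ) : ℂ) * 1 + ((Int.fract y : ℝ) : ℂ) * (1 + om))
      rw [hx', hy']
      push_cast
      ring
  · refine ⟨((⌊x⌋ + 1 : ℤ) : ℂ) + ((⌊y⌋ + 1 : ℤ) : ℂ) * om, -1,
      ![Int.fract x, Int.fract y - Int.fract x, 1 - Int.fract y], ⟨⌊x⌋ + 1, ⌊y⌋ + 1, rfl⟩,
      Or.inr rfl, ?_, ?_, ?_⟩
    · intro i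
      fin_cases i
      · show 0 ≤ Int.fract x; exact hu0
      · show 0 ≤ Int.fract y - Int.fract x; linarith
      · show 0 ≤ 1 - Int.fract y; linarith
    · rw [Fin.sum_univ_three]
      show Int.fract x + (Int.fract y - Int.fract x) + (1 - Int.fract y) = 1
      ring
    · rw [Fin.sum_univ_three, c2_cv0, c2_cv1, c2_cv2]
      show (x : ℂ) + y * om = _ + ((-1 : ℝ) : ℂ) * (((Int.fract x : ℝ) : ℂ) * 0 +
        ((Int.fract y - Int.fract x : ℝ) : ℂ) * 1 + ((1 - Int.fract y : ℝ) : ℂ) * (1 + om))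
      rw [hx', hy']
      push_cast
      ring

theorem c2_cv_eis (j : Fin 3) : IsEis (cv j) := by
  fin_cases j
  · exact IsEis.zero
  · exact IsEis.one
  · exact IsEis.one.add IsEis.omega

/-- the hexagon -/
def Hex (a b : ℝ) : Prop := |2 * a - b| ≤ 1 ∧ |2 * b - a| ≤ 1 ∧ |a + b| ≤ 1

theorem c2_hex (w : Fin 3 → ℝ) (hw : ∀ i, 0 ≤ w i) (hws : ∑ i, w i = 1) :
    ∃ (j : Fin 3) (a b : ℝ), dv w j = (a : ℂ) + b * om ∧ Hex a b := by
  have h0 := hw 0
  have h1 := hw 1
  have h2 := hw 2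
  have hs := hws
  rw [Fin.sum_univ_three] at hs
  rcases le_total (w 0) (w 1) with h01 | h01
  · rcases le_total (w 1) (w 2) with h12 | h12
    · refine ⟨2, _, _, c2_dv2 w hws, ?_, ?_, ?_⟩ <;> rw [abs_le] <;> constructor <;> linarith
    · refine ⟨1, _, _, c2_dv1 w hws, ?_, ?_, ?_⟩ <;> rw [abs_le] <;> constructor <;> linarith
  · rcases le_total (w 0) (w 2) with h02 | h02
    · refine ⟨2, _, _, c2_dv2 w hws, ?_, ?_, ?_⟩ <;> rw [abs_le] <;> constructor <;> linarith
    · refine ⟨0, _, _, c2_dv0 w hws, ?_, ?_, ?_⟩ <;> rw [abs_le] <;> constructor <;> linarith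

theorem c2_near_hex (hcore : ∀ (a b μ : ℝ), 0 ≤ b → b ≤ a → 2 * a - b ≤ 1 → a + b ≤ 1 →
      1 - (a ^ 2 - a * b + b ^ 2) ≤ μ → Near ((a : ℂ) + b * om) μ)
    {a b μ : ℝ} (hh : Hex a b) (hn : 1 - (a ^ 2 - a * b + b ^ 2) ≤ μ) :
    Near ((a : ℂ) + b * om) μ := by
  obtain ⟨h1, h2, h3⟩ := hh
  rw [abs_le] at h1 h2 h3
  have hom := om_sq
  rcases le_total 0 b with hb | hb
  · rcases le_total 0 a with ha | ha
    · rcases le_total b a with hab | hab
      · exact hcore a b μ hb hab (by linarith) (by linarith) hn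
      · have h := hcore b a μ ha hab (by linarith) (by linarith) (by nlinarith)
        have h' := near_om (near_conj h)
        have e : (starRingEnd ℂ) ((b : ℂ) + a * om) * om = (a : ℂ) + b * om := by
          simp only [map_add, map_mul, conj_om, Complex.conj_ofReal]
          linear_combination (-(a : ℂ)) * hom
        rwa [e] at h'
    · -- a ≤ 0 ≤ b : (b - a, -a)
      have h := hcore (b - a) (-a) μ (by linarith) (by linarith) (by linarith) (by linarith)
        (by nlinarith)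
      have h' := near_om h
      have e : (((b - a : ℝ) : ℂ) + ((-a : ℝ) : ℂ) * om) * om = (a : ℂ) + b * om := by
        push_cast
        linear_combination (-(a : ℂ)) * hom
      rwa [e] at h'
  · rcases le_total 0 a with ha | ha
    · -- b ≤ 0 ≤ a : (a - b, -b)
      have h := hcore (a - b) (-b) μ (by linarith) (by linarith) (by linarith) (by linarith)
        (by nlinarith)
      have h' := near_conj h
      have e : (starRingEnd ℂ) (((a - b : ℝ) : ℂ) + ((-b : ℝ) : ℂ) * om) = (a : ℂ) + b * om := by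
        simp only [map_add, map_mul, conj_om, Complex.conj_ofReal]
        push_cast
        ring
      rwa [e] at h'
    · rcases le_total b a with hab | hab
      · -- b ≤ a ≤ 0 : (-b, a - b)
        have h := hcore (-b) (a - b) μ (by linarith) (by linarith) (by linarith) (by linarith)
          (by nlinarith)
        have h' := near_om (near_om h)
        have e : (((-b : ℝ) : ℂ) + ((a - b : ℝ) : ℂ) * om) * om * om = (a : ℂ) + b * om := by
          push_cast
          have hom3 := om_cube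
          linear_combination ((a : ℂ) - b) * hom3 - (b : ℂ) * hom
        rwa [e] at h'
      · -- a ≤ b ≤ 0 : (-a, b - a)
        have h := hcore (-a) (b - a) μ (by linarith) (by linarith) (by linarith) (by linarith)
          (by nlinarith)
        have h' := near_om (near_om (near_conj h))
        have e : (starRingEnd ℂ) (((-a : ℝ) : ℂ) + ((b - a : ℝ) : ℂ) * om) * om * om
            = (a : ℂ) + b * om := by
          simp only [map_add, map_mul, conj_om, Complex.conj_ofReal]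
          push_cast
          have hom3 := om_cube
          linear_combination (-((b : ℂ) - a)) * hom3 - (b : ℂ) * hom
        rwa [e] at h'

/-- PIECE C2 -/
theorem pair_cover_of (hcore : ∀ (a b μ : ℝ), 0 ≤ b → b ≤ a → 2 * a - b ≤ 1 → a + b ≤ 1 →
      1 - (a ^ 2 - a * b + b ^ 2) ≤ μ → Near ((a : ℂ) + b * om) μ)
    {x : ℂ} {μ : ℝ} (hx : ∀ e, IsEis e → 1 ≤ Complex.normSq (e + x) + μ) (y z : ℂ) :
    ∃ e f, IsEis e ∧ IsEis f ∧
      Complex.normSq (e + f * x + y) + μ * Complex.normSq (f + z) ≤ 1 / 6 + μ / 2 := by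
  -- reduce `x`
  obtain ⟨A0, s0, w0, hA0, hs0, hw0, hw0s, hx0⟩ := c2_decomp x
  obtain ⟨j0, a0, b0, hab, hhex⟩ := c2_hex w0 hw0 hw0s
  set e0 : ℂ := A0 + s0 * cv j0 with he0
  have he0' : IsEis e0 := by
    refine hA0.add ?_
    rcases hs0 with h | h
    · rw [h]; simpa using c2_cv_eis j0
    · rw [h]; simpa using (c2_cv_eis j0).neg
  have hx' : x - e0 = s0 * dv w0 j0 := by
    rw [he0, dv]
    conv_lhs => rw [hx0]
    ring
  -- decomposition of `z`
  obtain ⟨A, s, w, hA, hs, hw, hws, hz⟩ := c2_decomp z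
  obtain ⟨A', s', v, hA', hs', hv, hvs, hy⟩ := c2_decomp (y - (x - e0) * z)
  -- the sign
  set σ : ℝ := - s * s' * s0 with hσ
  have hσ1 : σ = 1 ∨ σ = -1 := by
    rcases hs with h | h <;> rcases hs' with h' | h' <;> rcases hs0 with h0 | h0 <;>
      rw [hσ, h, h', h0] <;> norm_num
  have hhex' : Hex (σ * a0) (σ * b0) := by
    obtain ⟨h1, h2, h3⟩ := hhex
    rcases hσ1 with h | h
    · rw [h]; simpa using ⟨h1, h2, h3⟩
    · rw [h]
      refine ⟨?_, ?_, ?_⟩
      · rw [show 2 * (-1 * a0) - -1 * b0 = -(2 * a0 - b0) by ring, abs_neg]; exact h1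
      · rw [show 2 * (-1 * b0) - -1 * a0 = -(2 * b0 - a0) by ring, abs_neg]; exact h2
      · rw [show -1 * a0 + -1 * b0 = -(a0 + b0) by ring, abs_neg]; exact h3
  have hnorm : 1 - ((σ * a0) ^ 2 - (σ * a0) * (σ * b0) + (σ * b0) ^ 2) ≤ μ := by
    have h1 := hx (-e0) he0'.neg
    have h2 : -e0 + x = s0 * dv w0 j0 := by rw [← hx']; ring
    rw [h2, Complex.normSq_mul, Complex.normSq_ofReal, hab, normSq_ab] at h1
    have h3 : s0 * s0 = 1 := by rcases hs0 with h | h <;> rw [h] <;> norm_num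
    have h4 : σ * σ = 1 := by rcases hσ1 with h | h <;> rw [h] <;> norm_num
    rw [h3] at h1
    have h5 : (σ * a0) ^ 2 - (σ * a0) * (σ * b0) + (σ * b0) ^ 2
        = (σ * σ) * (a0 ^ 2 - a0 * b0 + b0 ^ 2) := by ring
    rw [h5, h4]
    linarith
  have hnear := c2_near_hex hcore hhex' hnorm
  obtain ⟨j, k, hjk⟩ := hnear w v hw hv hws hvs
  -- the lattice points
  set f : ℂ := -(A + s * cv j) with hf
  set e1 : ℂ := -(A' + s' * cv k) with he1
  have hfE : IsEis f := by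
    refine (hA.add ?_).neg
    rcases hs with h | h
    · rw [h]; simpa using c2_cv_eis j
    · rw [h]; simpa using (c2_cv_eis j).neg
  have heE : IsEis e1 := by
    refine (hA'.add ?_).neg
    rcases hs' with h | h
    · rw [h]; simpa using c2_cv_eis k
    · rw [h]; simpa using (c2_cv_eis k).neg
  refine ⟨e1 - f * e0, f, heE.sub (hfE.mul he0'), hfE, ?_⟩
  have h1 : f + z = s * dv w j := by
    rw [hf, dv]
    conv_lhs => rw [hz]
    ring
  have h2 : e1 + (y - (x - e0) * z) = s' * dv v k := by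
    rw [he1, dv, hy]
    ring
  have hss : s * s = 1 := by rcases hs with h | h <;> rw [h] <;> norm_num
  have hss' : s' * s' = 1 := by rcases hs' with h | h <;> rw [h] <;> norm_num
  have hssC : (s' : ℂ) * s' = 1 := by exact_mod_cast hss'
  have h3 : e1 - f * e0 + f * x + y
      = s' * (dv v k - (((σ * a0 : ℝ) : ℂ) + ((σ * b0 : ℝ) : ℂ) * om) * dv w j) := by
    have h4 : e1 - f * e0 + f * x + y = (e1 + (y - (x - e0) * z)) + (x - e0) * (f + z) := by ring
    rw [h4, h1, h2, hx', hab, hσ]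
    push_cast
    linear_combination (-(s : ℂ) * s0 * dv w j * (a0 + b0 * om)) * hssC
  rw [h3, h1, Complex.normSq_mul, Complex.normSq_mul, Complex.normSq_ofReal,
    Complex.normSq_ofReal, hss, hss', one_mul, one_mul]
  exact hjk

end Pool.Agent.K6.H56.E6
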