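import Pool.Agent.K6.H19.E5.Red

/-!
# Piece D (helper13): reduction theory with the minimum over all lattice vectors
-/

set_option autoImplicit false

namespace Pool.Agent.K6.H56.E6

open Matrix Pool.Agent.R895 Pool.Agent.K6.H19.E5

/-- A transvection with Eisenstein entries is in `GL`. -/
theorem transvection_isGL {n : ℕ} {i j : Fin n} (hij : i ≠ j) {e : ℂ} (he : IsEis e) :
    IsGL (transvection i j e) := by
  have hent : ∀ {c : ℂ}, IsEis c → ∀ a b, IsEis (transvection i j c a b) := by
    intro c hc a b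
    rw [transvection, Matrix.add_apply]
    refine (IsGL.one.ent a b).add ?_
    rw [Matrix.single_apply]
    split_ifs
    · exact hc
    · exact IsEis.zero
  refine ⟨hent he, transvection i j (-e), hent he.neg, ?_, ?_⟩
  · rw [transvection_mul_transvection_same i j hij, add_neg_cancel, transvection_zero]
  · rw [transvection_mul_transvection_same i j hij, neg_add_cancel, transvection_zero]

theorem transvection_mulVec {n : ℕ} {i j : Fin n} (e : ℂ) (w : Fin n → ℂ) :
    (transvection i j e *ᵥ w) i = w i + e * w j := by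
  rw [transvection, add_mulVec, one_mulVec, Pi.add_apply]
  congr 1
  simp [mulVec, dotProduct, Matrix.single_apply]

/-- Every nonzero lattice vector is a nonzero multiple of a unimodular column. -/
theorem exists_col_ne {n : ℕ} {v : Fin (n + 1) → ℂ} (hv : IsLat v) (hv0 : v ≠ 0) :
    ∃ (g : Matrix (Fin (n + 1)) (Fin (n + 1)) ℂ) (c : ℂ), IsGL g ∧ IsEis c ∧ c ≠ 0 ∧
      v = c • (g *ᵥ (Pi.single 0 1)) := by
  classical
  have hex : ∃ N : ℕ, ∃ g : Matrix (Fin (n + 1)) (Fin (n + 1)) ℂ, IsGL g ∧
      ∃ k, (g *ᵥ v) k ≠ 0 ∧ Complex.normSq ((g *ᵥ v) k) = N := by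
    obtain ⟨k, hk⟩ : ∃ k, v k ≠ 0 := by
      by_contra h
      push Not at h
      exact hv0 (funext h)
    obtain ⟨N, hN⟩ := (hv k).normSq
    refine ⟨N, 1, IsGL.one, k, ?_, ?_⟩
    · rwa [one_mulVec]
    · rwa [one_mulVec]
  obtain ⟨g, hg, k, hk, hN⟩ := Nat.find_spec hex
  have hmin : ∀ m : ℕ, (∃ g : Matrix (Fin (n + 1)) (Fin (n + 1)) ℂ, IsGL g ∧
      ∃ k, (g *ᵥ v) k ≠ 0 ∧ Complex.normSq ((g *ᵥ v) k) = m) → Nat.find hex ≤ m :=
    fun m hm => Nat.find_min' hex hm
  set w := g *ᵥ v with hw
  have hwl : IsLat w := hg.mulVec hv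
  have hdiv : ∀ i, IsEis (w i / w k) := by
    intro i
    by_cases hik : i = k
    · rw [hik, div_self hk]
      exact IsEis.one
    obtain ⟨e, he, he2⟩ := exists_near (w i / w k)
    have h1 : ((transvection i k (-e) * g) *ᵥ v) i = w i - e * w k := by
      rw [← mulVec_mulVec, transvection_mulVec, ← hw]
      ring
    have h2 : w i - e * w k = (w i / w k - e) * w k := by
      field_simp
    by_cases h3 : w i - e * w k = 0
    · have : w i / w k = e := by
        rw [div_eq_iff hk]
        linear_combination h3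
      rw [this]
      exact he
    · exfalso
      obtain ⟨m, hm⟩ := ((hwl i).sub (he.mul (hwl k))).normSq
      have h4 := hmin m ⟨transvection i k (-e) * g, (transvection_isGL hik he.neg).mul hg, i,
        by rw [h1]; exact h3, by rw [h1, hm]⟩
      have h5 : (m : ℝ) ≤ 1 / 3 * (Nat.find hex : ℝ) := by
        rw [← hm, h2, Complex.normSq_mul, ← hN]
        exact mul_le_mul_of_nonneg_right he2 (Complex.normSq_nonneg _)
      have h6 : (0 : ℝ) < (Nat.find hex : ℝ) := by
        rw [← hN]
        exact Complex.normSq_pos.2 hk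
      have h7 : (Nat.find hex : ℝ) ≤ m := by exact_mod_cast h4
      linarith
  set u : Fin (n + 1) → ℂ := fun i => w i / w k with hu
  obtain ⟨g₂, hg₂, hg₂u⟩ := exists_col (k := k) (v := u) hdiv (by rw [hu]; exact div_self hk)
  obtain ⟨g', h1, h2, h3⟩ := hg.inv
  have hg' : IsGL g' := ⟨h1, g, hg.ent, h3, h2⟩
  refine ⟨g' * g₂, w k, hg'.mul hg₂, hwl k, hk, ?_⟩
  rw [← mulVec_mulVec, hg₂u, ← mulVec_smul]
  have h4 : w k • u = w := by
    ext i
    rw [Pi.smul_apply, hu, smul_eq_mul]
    field_simp
  rw [h4, hw, mulVec_mulVec, h3, one_mulVec]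

/-- **Reduction theory.** -/
theorem exists_red3 : ∀ (n : ℕ) (M : Matrix (Fin n) (Fin n) ℂ), Pd M →
    ∃ (g : Matrix (Fin n) (Fin n) ℂ) (x : Fin n → Fin n → ℂ) (m : Fin n → ℝ), IsGL g ∧
      (∀ i, 0 < m i) ∧ (∀ (i k : Fin n), i ≤ k → ∀ v, IsLat v → v k ≠ 0 →
        m i ≤ ∑ j, if i ≤ j then m j * Complex.normSq (star (x j) ⬝ᵥ v) else 0) ∧
      (∀ i, x i i = 1) ∧ (∀ i j, j < i → x i j = 0) ∧
      (∀ i j, i < j → Complex.normSq (x i j) ≤ 1 / 3) ∧
      gᴴ * M * g = ∑ i, (m i : ℂ) • vecMulVec (x i) (star (x i)) := by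
  intro n
  induction n with
  | zero =>
    intro M _
    exact ⟨1, fun i => i.elim0, fun i => i.elim0, IsGL.one, fun i => i.elim0, fun i => i.elim0,
      fun i => i.elim0, fun i => i.elim0, fun i => i.elim0, by ext i; exact i.elim0⟩
  | succ n ih =>
    intro M hM
    -- a minimal unimodular column
    obtain ⟨v, ⟨g₁, hg₁, rfl⟩, hmin⟩ := hM.exists_min
      (A := {v | ∃ g, IsGL g ∧ v = g *ᵥ (Pi.single 0 1)}) (by
        rintro _ ⟨g, hg, rfl⟩
        refine hg.mulVec fun i => ?_
        by_cases hi : i = 0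
        · rw [hi, Pi.single_eq_same]; exact IsEis.one
        · rw [Pi.single_eq_of_ne hi]; exact IsEis.zero) ⟨_, 1, IsGL.one, rfl⟩
    obtain ⟨a, x₀, M', ha, hx₀, haq, hM', hdec⟩ := (hM.conj hg₁).schur
    obtain ⟨g', x', m', hg', hm', hch, hd, hz, hs, hM'd⟩ := ih M' hM'
    -- size reduction
    choose e he1 he2 using fun j : Fin n => exists_near ((g'ᴴ *ᵥ (fun i => x₀ i.succ)) j)
    set c : Fin n → ℂ := fun j => -star (e j) with hc
    set G := up c g' with hG
    have hGL : IsGL G := up_isGL _ _ (fun j => (he1 j).star.neg) hg'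
    set y : Fin (n + 1) → ℂ := Gᴴ *ᵥ x₀ with hy
    have hy0 : y 0 = 1 := by
      simp [hy, hG, mulVec, dotProduct, Fin.sum_univ_succ, hx₀]
    have hys : ∀ j : Fin n, y j.succ = (g'ᴴ *ᵥ (fun i => x₀ i.succ)) j - e j := by
      intro j
      simp only [hy, hG, mulVec, dotProduct, Fin.sum_univ_succ, hx₀, conjTranspose_apply, up_zs,
        up_ss, hc, mul_one, star_neg, star_star]
      ring
    have hmat : (g₁ * G)ᴴ * M * (g₁ * G) = ∑ i : Fin (n + 1),
        (((Fin.cons a m' : Fin (n + 1) → ℝ) i : ℝ) : ℂ) •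
          vecMulVec ((Fin.cons y (fun i => Fin.cons 0 (x' i)) : Fin (n + 1) → Fin (n + 1) → ℂ) i)
            (star ((Fin.cons y (fun i => Fin.cons 0 (x' i)) : Fin (n + 1) → Fin (n + 1) → ℂ) i)) := by
      have h1 : (g₁ * G)ᴴ * M * (g₁ * G) = Gᴴ * (g₁ᴴ * M * g₁) * G := by
        rw [conjTranspose_mul]
        simp only [Matrix.mul_assoc]
      rw [h1, hdec, Matrix.mul_add, Matrix.add_mul, up_low, hM'd, low_sum, Fin.sum_univ_succ]
      simp only [Fin.cons_zero, Fin.cons_succ]
      congr 1
      · rw [Matrix.mul_smul, Matrix.smul_mul, mul_vecMulVec, vecMulVec_mul, hy, star_mulVec,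
          conjTranspose_conjTranspose]
      · exact Finset.sum_congr rfl fun i _ => low_vec _ _
    refine ⟨g₁ * G, Fin.cons y (fun i => Fin.cons 0 (x' i)), Fin.cons a m', hg₁.mul hGL, ?_, ?_,
      ?_, ?_, ?_, hmat⟩
    · intro i
      refine Fin.cases ?_ (fun i => ?_) i
      · exact ha
      · exact hm' i
    · intro i k hik v hv hk
      refine Fin.cases (fun hik => ?_) (fun i => ?_) i hik
      · -- the first step
        obtain ⟨g₂, d, hg₂, hdE, hd0, hg₂v⟩ := exists_col_ne hv (fun h => hk (by rw [h]; rfl))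
        have h0 := hmin _ ⟨g₁ * G * g₂, (hg₁.mul hGL).mul hg₂, rfl⟩
        have h1 : q M (g₁ *ᵥ Pi.single 0 1) ≤ q M ((g₁ * G) *ᵥ v) := by
          rw [hg₂v, mulVec_smul, q_smul_vec, mulVec_mulVec]
          have h2 := hdE.one_le_normSq hd0
          have h3 := (hM.psd).2 ((g₁ * G * g₂) *ᵥ Pi.single 0 1)
          nlinarith
        rw [← q_conj M (g₁ * G), hmat, q_dec, ← q_conj M g₁, ← haq] at h1
        rw [Fin.cons_zero]
        refine h1.trans (le_of_eq (Finset.sum_congr rfl fun j _ => ?_))
        rw [if_pos (Fin.zero_le j)]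
      · intro hik
        obtain ⟨l, rfl⟩ : ∃ l : Fin n, k = l.succ := by
          refine ⟨⟨k - 1, ?_⟩, ?_⟩
          · have := k.2
            have h0 := Fin.le_def.1 hik
            simp only [Fin.val_succ] at h0
            omega
          · ext
            have h0 := Fin.le_def.1 hik
            simp only [Fin.val_succ] at h0 ⊢
            omega
        have h1 := hch i l (by simpa using hik) (fun j => v j.succ) (fun j => hv j.succ) hk
        rw [Fin.cons_succ, Fin.sum_univ_succ, if_neg (by simp), zero_add]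
        refine h1.trans (le_of_eq (Finset.sum_congr rfl fun j _ => ?_))
        have h2 : (i.succ ≤ j.succ) ↔ i ≤ j := by simp
        by_cases hij : i ≤ j
        · rw [if_pos hij, if_pos (h2.2 hij)]
          simp only [Fin.cons_succ]
          congr 2
          simp [dotProduct, Fin.sum_univ_succ]
        · rw [if_neg hij, if_neg (fun h => hij (h2.1 h))]
    · intro i
      refine Fin.cases ?_ (fun i => ?_) i
      · exact hy0
      · simp only [Fin.cons_succ]
        exact hd i
    · intro i j hij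
      refine Fin.cases (fun hij => ?_) (fun i => ?_) i hij
      · exact absurd hij (by simp)
      · intro hij
        refine Fin.cases (fun hij => ?_) (fun j => ?_) j hij
        · simp only [Fin.cons_succ, Fin.cons_zero]
        · intro hij
          simp only [Fin.cons_succ]
          exact hz i j (by simpa using hij)
    · intro i j hij
      refine Fin.cases (fun hij => ?_) (fun i => ?_) i hij
      · refine Fin.cases (fun hij => ?_) (fun j => ?_) j hij
        · exact absurd hij (by simp)
        · intro _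
          simp only [Fin.cons_zero]
          rw [hys]
          exact he2 j
      · intro hij
        refine Fin.cases (fun hij => ?_) (fun j => ?_) j hij
        · exact absurd hij (by simp)
        · intro hij
          simp only [Fin.cons_succ]
          exact hs i j (by simpa using hij)

end Pool.Agent.K6.H56.E6
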