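import Pool.Agent.K6.H19.E5.LemB
import Pool.Agent.K6.H56.E6.PieceB3
import Pool.Agent.K6.H56.E6.PieceC1
import Pool.Agent.K6.H56.E6.PieceC2
import Pool.Agent.K6.H56.E6.PieceD

/-!
# The key inequality in rank six
-/

set_option autoImplicit false

namespace Pool.Agent.K6.H56.E6

open Matrix Pool.Agent.R895 Pool.Agent.K6.H19.E5

/-! ### the constants of Blichfeldt's bound -/

theorem const6 : (1 : ℝ) / 144 ≤ (Real.pi / √3) ^ 6 / (6 + 1).factorial := by
  have h3 : (√(3 : ℝ)) ^ 2 = 3 := Real.sq_sqrt (by norm_num)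
  have h1 : (Real.pi / √3) ^ 6 = Real.pi ^ 6 / 27 := by
    rw [div_pow]
    congr 1
    calc (√(3 : ℝ)) ^ 6 = ((√(3 : ℝ)) ^ 2) ^ 3 := by ring
      _ = 27 := by rw [h3]; norm_num
  have h2 : (3.14 : ℝ) ^ 6 ≤ Real.pi ^ 6 :=
    pow_le_pow_left₀ (by norm_num) Real.pi_gt_d2.le 6
  have h4 : ((6 + 1).factorial : ℝ) = 5040 := by
    norm_num [Nat.factorial]
  rw [h1, h4]
  have h5 : (945 : ℝ) ≤ (3.14 : ℝ) ^ 6 := by norm_num
  have h6 := h5.trans h2
  rw [div_div, div_le_div_iff₀ (by norm_num) (by norm_num)]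
  linarith

theorem const5 : (1 : ℝ) / 37 ≤ (Real.pi / √3) ^ 5 / (5 + 1).factorial := by
  have h3 : (√(3 : ℝ)) ^ 2 = 3 := Real.sq_sqrt (by norm_num)
  have hs : (√(3 : ℝ)) ≤ 1.73206 := by
    rw [Real.sqrt_le_left (by norm_num)]
    norm_num
  have hs0 : 0 < √(3 : ℝ) := Real.sqrt_pos.2 (by norm_num)
  have h1 : (3.14 / 1.73206 : ℝ) ≤ Real.pi / √3 := by
    apply div_le_div₀ Real.pi_pos.le Real.pi_gt_d2.le hs0 hs
  have h2 := pow_le_pow_left₀ (by norm_num) h1 5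
  have h4 : ((5 + 1).factorial : ℝ) = 720 := by
    norm_num [Nat.factorial]
  rw [h4]
  have h5 : (720 / 37 : ℝ) ≤ (3.14 / 1.73206 : ℝ) ^ 5 := by norm_num
  have h6 := h5.trans h2
  rw [div_le_div_iff₀ (by norm_num) (by norm_num)]
  linarith

theorem herm6 {H : Matrix (Fin 6) (Fin 6) ℂ} (hH : Pd H) {h : ℝ} (hh : 0 < h)
    (hmin : ∀ w, IsLat w → w ≠ 0 → h ≤ q H w) : h ^ 6 / 144 ≤ H.det.re := by
  have h1 := blich hH hh hmin
  have h2 := mul_le_mul_of_nonneg_left const6 (pow_pos hh 6).le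
  refine le_trans (le_of_eq ?_) (h2.trans (le_trans (le_of_eq ?_) h1))
  · ring
  · ring

theorem herm5 {H : Matrix (Fin 5) (Fin 5) ℂ} (hH : Pd H) {h : ℝ} (hh : 0 < h)
    (hmin : ∀ w, IsLat w → w ≠ 0 → h ≤ q H w) : h ^ 5 / 37 ≤ H.det.re := by
  have h1 := blich hH hh hmin
  have h2 := mul_le_mul_of_nonneg_left const5 (pow_pos hh 5).le
  refine le_trans (le_of_eq ?_) (h2.trans (le_trans (le_of_eq ?_) h1))
  · ring
  · ring

/-! ### weighted sums of Schur complements -/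

theorem sum_lower (n : ℕ) (hn : 0 < n) (y : Fin n → ℝ) (hy : ∀ i, 0 ≤ y i) {c : ℝ} (_hc : 0 < c)
    (h : (c / n) ^ n ≤ ∏ i, y i) : c ≤ ∑ i, y i := by
  have h1 := h.trans (amgm n hn y hy)
  by_contra hcon
  push Not at hcon
  have hn' : (0 : ℝ) < n := by exact_mod_cast hn
  have h2 : ((∑ i, y i) / n) ^ n < (c / n) ^ n :=
    pow_lt_pow_left₀ (div_lt_div_of_pos_right hcon hn')
      (div_nonneg (Finset.sum_nonneg fun i _ => hy i) hn'.le) (by omega)
  linarith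

section

variable {K : Matrix (Fin 6) (Fin 6) ℂ} (hK : Pd K) {h : ℝ} (hh : 0 < h)
  (hmin : ∀ w, IsLat w → w ≠ 0 → h ≤ q K w)

include hK hh hmin

theorem V0 : 17 / 18 * h ≤ ∑ i : Fin 6, (2 / 3 : ℝ) ^ (i : ℕ) * hs 6 K i := by
  apply sum_lower 6 (by norm_num) _ (fun i => mul_nonneg (by positivity) (hs_pos 6 K hK i).le)
    (by positivity)
  rw [Finset.prod_mul_distrib, prod_hs 6 K hK]
  have h1 := herm6 hK hh hmin
  have h2 : ∏ i : Fin 6, (2 / 3 : ℝ) ^ (i : ℕ) = (2 / 3) ^ 15 := by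
    simp [Fin.prod_univ_succ]
    norm_num
  rw [h2]
  have h3 := pow_pos hh 6
  have h4 : (17 / 18 * h / ((6 : ℕ) : ℝ)) ^ 6 = (17 / 108) ^ 6 * h ^ 6 := by
    push_cast
    ring
  rw [h4]
  calc (17 / 108 : ℝ) ^ 6 * h ^ 6 ≤ (2 / 3) ^ 15 * (h ^ 6 / 144) := by
        have : (17 / 108 : ℝ) ^ 6 ≤ (2 / 3) ^ 15 / 144 := by norm_num
        calc (17 / 108 : ℝ) ^ 6 * h ^ 6 ≤ ((2 / 3) ^ 15 / 144) * h ^ 6 :=
              mul_le_mul_of_nonneg_right this h3.le
          _ = _ := by ring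
    _ ≤ _ := mul_le_mul_of_nonneg_left h1 (by positivity)

theorem V0' : 4 / 3 * h ≤ ∑ i : Fin 6, (2 / 3 : ℝ) ^ ((i : ℕ) - 1) * hs 6 K i := by
  apply sum_lower 6 (by norm_num) _ (fun i => mul_nonneg (by positivity) (hs_pos 6 K hK i).le)
    (by positivity)
  rw [Finset.prod_mul_distrib, prod_hs 6 K hK]
  have h1 := herm6 hK hh hmin
  have h2 : ∏ i : Fin 6, (2 / 3 : ℝ) ^ ((i : ℕ) - 1) = (2 / 3) ^ 10 := by
    simp [Fin.prod_univ_succ]
    norm_num
  rw [h2]
  have h3 := pow_pos hh 6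
  have h4 : (4 / 3 * h / ((6 : ℕ) : ℝ)) ^ 6 = (2 / 9) ^ 6 * h ^ 6 := by
    push_cast
    ring
  rw [h4]
  calc (2 / 9 : ℝ) ^ 6 * h ^ 6 ≤ (2 / 3) ^ 10 * (h ^ 6 / 144) := by
        have : (2 / 9 : ℝ) ^ 6 ≤ (2 / 3) ^ 10 / 144 := by norm_num
        calc (2 / 9 : ℝ) ^ 6 * h ^ 6 ≤ ((2 / 3) ^ 10 / 144) * h ^ 6 :=
              mul_le_mul_of_nonneg_right this h3.le
          _ = _ := by ring
    _ ≤ _ := mul_le_mul_of_nonneg_left h1 (by positivity)

/-- all six weighted sums -/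
theorem allV : (17 / 18 * h ≤ hs 6 K 0 + 2 / 3 * hs 6 K 1 + 4 / 9 * hs 6 K 2 +
      8 / 27 * hs 6 K 3 + 16 / 81 * hs 6 K 4 + 32 / 243 * hs 6 K 5) ∧
    (4 / 3 * h ≤ hs 6 K 0 + hs 6 K 1 + 2 / 3 * hs 6 K 2 +
      4 / 9 * hs 6 K 3 + 8 / 27 * hs 6 K 4 + 16 / 81 * hs 6 K 5) ∧
    (h ≤ hs 6 K 1 + 2 / 3 * hs 6 K 2 +
      4 / 9 * hs 6 K 3 + 8 / 27 * hs 6 K 4 + 16 / 81 * hs 6 K 5) ∧
    (h ≤ hs 6 K 2 + 2 / 3 * hs 6 K 3 + 4 / 9 * hs 6 K 4 + 8 / 27 * hs 6 K 5) ∧
    (h ≤ hs 6 K 3 + 2 / 3 * hs 6 K 4 + 4 / 9 * hs 6 K 5) ∧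
    (h ≤ hs 6 K 4 + 2 / 3 * hs 6 K 5) ∧ h ≤ hs 6 K 5 := by
  have v0 := V0 hK hh hmin
  have v0' := V0' hK hh hmin
  have v1 := V_ge5 hK.tl hh (min_tl hmin)
  have v2 := V_ge (by norm_num) (by norm_num) hK.tl.tl hh (min_tl (min_tl hmin))
  have v3 := V_ge (by norm_num) (by norm_num) hK.tl.tl.tl hh (min_tl (min_tl (min_tl hmin)))
  have v4 := V_ge (by norm_num) (by norm_num) hK.tl.tl.tl.tl hh
    (min_tl (min_tl (min_tl (min_tl hmin))))
  have v5 := V_ge (by norm_num) (by norm_num) hK.tl.tl.tl.tl.tl hh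
    (min_tl (min_tl (min_tl (min_tl (min_tl hmin)))))
  have e1 : ∀ i : Fin 5, hs 6 K i.succ = hs 5 (tl K) i := fun i => hs_succ K i
  have e2 : ∀ i : Fin 4, hs 5 (tl K) i.succ = hs 4 (tl (tl K)) i := fun i => hs_succ _ i
  have e3 : ∀ i : Fin 3, hs 4 (tl (tl K)) i.succ = hs 3 (tl (tl (tl K))) i := fun i => hs_succ _ i
  have e4 : ∀ i : Fin 2, hs 3 (tl (tl (tl K))) i.succ = hs 2 (tl (tl (tl (tl K)))) i :=
    fun i => hs_succ _ i
  have e5 : ∀ i : Fin 1, hs 2 (tl (tl (tl (tl K)))) i.succ = hs 1 (tl (tl (tl (tl (tl K))))) i :=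
    fun i => hs_succ _ i
  simp only [← e5, ← e4, ← e3, ← e2, ← e1] at v1 v2 v3 v4 v5
  simp [Fin.sum_univ_succ] at v0 v0' v1 v2 v3 v4 v5
  have f2 : (Fin.succ (1 : Fin 5) : Fin 6) = 2 := rfl
  have f3 : (Fin.succ (Fin.succ (1 : Fin 4)) : Fin 6) = 3 := rfl
  have f4 : (Fin.succ (Fin.succ (Fin.succ (1 : Fin 3))) : Fin 6) = 4 := rfl
  have f5 : (Fin.succ (Fin.succ (Fin.succ (Fin.succ (1 : Fin 2)))) : Fin 6) = 5 := rfl
  refine ⟨?_, ?_, ?_, ?_, ?_, ?_, ?_⟩
  · linarith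
  · linarith
  · linarith
  · linarith
  · linarith
  · linarith
  · linarith

end

/-! ### the products of the coefficients of a reduced form -/

section

variable {n : ℕ}

/-- the form with the coefficients `m` -/
noncomputable def frm (x : Fin n → Fin n → ℂ) (m : Fin n → ℝ) : Matrix (Fin n) (Fin n) ℂ :=
  ∑ i, (m i : ℂ) • vecMulVec (x i) (star (x i))

theorem q_frm (x : Fin n → Fin n → ℂ) (m : Fin n → ℝ) (v : Fin n → ℂ) :
    q (frm x m) v = ∑ i, m i * Complex.normSq (star (x i) ⬝ᵥ v) := by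
  unfold frm
  exact q_dec m x v

theorem frm_herm (x : Fin n → Fin n → ℂ) (m : Fin n → ℝ) : (frm x m).IsHermitian := by
  unfold frm Matrix.IsHermitian
  rw [conjTranspose_sum]
  refine Finset.sum_congr rfl fun i _ => ?_
  rw [conjTranspose_smul, conjTranspose_vecMulVec, star_star]
  congr 1
  exact Complex.conj_ofReal _

end

section

variable {x : Fin 6 → Fin 6 → ℂ} {m : Fin 6 → ℝ} (hN : Pd (frm x m)) (hm : ∀ i, 0 < m i)
  (hR : ∀ (i k : Fin 6), i ≤ k → ∀ v, IsLat v → v k ≠ 0 →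
        m i ≤ ∑ j, if i ≤ j then m j * Complex.normSq (star (x j) ⬝ᵥ v) else 0)
  (hd : ∀ i, x i i = 1) (hz : ∀ i j, j < i → x i j = 0)

include hN hm hR hd hz

theorem prod6 : m 0 ^ 6 / 144 ≤ ∏ i, m i := by
  have h1 := herm6 hN (hm 0) (fun w hw hw0 => by
    obtain ⟨k, hk⟩ : ∃ k, w k ≠ 0 := by
      by_contra hcon
      push Not at hcon
      exact hw0 (funext hcon)
    have h2 := hR 0 k (Fin.zero_le k) w hw hk
    rw [q_frm]
    refine h2.trans (le_of_eq (Finset.sum_congr rfl fun j _ => ?_))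
    rw [if_pos (Fin.zero_le j)])
  have h2 : (frm x m).det = ((∏ i, m i : ℝ) : ℂ) := by
    unfold frm
    exact det_dec m x hd hz
  rw [h2, Complex.ofReal_re] at h1
  exact h1

theorem prod5 : m 1 ^ 5 / 37 ≤ ∏ i : Fin 5, m i.succ := by
  obtain ⟨x', hx'⟩ : ∃ x' : Fin 5 → Fin 5 → ℂ, x' = fun i j => x i.succ j.succ := ⟨_, rfl⟩
  obtain ⟨m', hm'⟩ : ∃ m' : Fin 5 → ℝ, m' = fun i => m i.succ := ⟨_, rfl⟩
  -- values of the two forms
  have hval : ∀ (c : ℂ) (v : Fin 5 → ℂ) (i : Fin 5),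
      star (x i.succ) ⬝ᵥ (Fin.cons c v : Fin 6 → ℂ) = star (x' i) ⬝ᵥ v := by
    intro c v i
    rw [dotProduct, Fin.sum_univ_succ, hx', dotProduct]
    simp [hz i.succ 0 (Fin.succ_pos i)]
  have hsum : ∀ (c : ℂ) (v : Fin 5 → ℂ), q (frm x m) (Fin.cons c v) =
      m 0 * Complex.normSq (star (x 0) ⬝ᵥ (Fin.cons c v : Fin 6 → ℂ)) + q (frm x' m') v := by
    intro c v
    rw [q_frm, q_frm, Fin.sum_univ_succ]
    congr 1
    refine Finset.sum_congr rfl fun i _ => ?_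
    rw [hval, hm']
  have hN' : Pd (frm x' m') := by
    refine ⟨frm_herm _ _, fun v hv => ?_⟩
    have h1 := hsum (-(∑ j, star (x 0 j.succ) * v j)) v
    have h2 : star (x 0) ⬝ᵥ (Fin.cons (-(∑ j, star (x 0 j.succ) * v j)) v : Fin 6 → ℂ) = 0 := by
      rw [dotProduct, Fin.sum_univ_succ]
      simp [hd 0]
    rw [h2, Complex.normSq_zero, mul_zero, zero_add] at h1
    rw [← h1]
    refine hN.2 _ fun h => hv ?_
    funext j
    have := congrFun h j.succ
    simpa using this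
  have h1 := herm5 hN' (h := m 1) (hm 1) (fun w hw hw0 => by
    obtain ⟨k, hk⟩ : ∃ k, w k ≠ 0 := by
      by_contra hcon
      push Not at hcon
      exact hw0 (funext hcon)
    have h2 := hR 1 k.succ (by
      rw [Fin.le_def]
      simp) (Fin.cons 0 w) (fun j => by
        refine Fin.cases ?_ (fun j => ?_) j
        · exact IsEis.zero
        · exact hw j) (by simpa using hk)
    rw [q_frm]
    refine h2.trans (le_of_eq ?_)
    rw [Fin.sum_univ_succ, if_neg (by decide), zero_add]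
    refine Finset.sum_congr rfl fun j _ => ?_
    rw [if_pos (by rw [Fin.le_def]; simp), hval, hm'])
  have h2 : (frm x' m').det = ((∏ i, m' i : ℝ) : ℂ) := by
    unfold frm
    refine det_dec m' x' (fun i => ?_) (fun i j hij => ?_)
    · rw [hx']; exact hd _
    · rw [hx']; exact hz _ _ (by simpa using hij)
  rw [h2, Complex.ofReal_re, hm'] at h1
  exact h1

end

/-! ### the final combinations -/

theorem comb_a {m K : Fin 6 → ℝ} {h : ℝ} (hh : 0 < h) (h10 : m 1 ≤ m 0)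
    (hch : ∀ i j : Fin 6, (i : ℕ) + 1 = j → 2 / 3 * m i ≤ m j)
    (v0 : 17 / 18 * h ≤ K 0 + 2 / 3 * K 1 + 4 / 9 * K 2 +
      8 / 27 * K 3 + 16 / 81 * K 4 + 32 / 243 * K 5)
    (v0' : 4 / 3 * h ≤ K 0 + K 1 + 2 / 3 * K 2 + 4 / 9 * K 3 + 8 / 27 * K 4 + 16 / 81 * K 5)
    (v2 : h ≤ K 2 + 2 / 3 * K 3 + 4 / 9 * K 4 + 8 / 27 * K 5)
    (v3 : h ≤ K 3 + 2 / 3 * K 4 + 4 / 9 * K 5) (v4 : h ≤ K 4 + 2 / 3 * K 5) (v5 : h ≤ K 5)
    (k : Fin 6) (hk : 2 ≤ k) :
    h * (m 0 / 6 + m 1 / 2 + (m k + 1 / 3 * ∑ i ∈ Finset.univ.filter (fun i => 2 ≤ i ∧ i < k), m i))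
      ≤ ∑ i, m i * K i := by
  have c0 := hch 0 1 rfl
  have c1 := hch 1 2 rfl
  have c2 := hch 2 3 rfl
  have c3 := hch 3 4 rfl
  have c4 := hch 4 5 rfl
  have a0 := mul_nonneg (sub_nonneg.2 h10) (sub_nonneg.2 v0)
  have a0' := mul_nonneg (show (0 : ℝ) ≤ 3 * m 1 - 2 * m 0 by linarith) (sub_nonneg.2 v0')
  have a2 := mul_nonneg (sub_nonneg.2 c1) (sub_nonneg.2 v2)
  have a3 := mul_nonneg (sub_nonneg.2 c2) (sub_nonneg.2 v3)
  have a4 := mul_nonneg (sub_nonneg.2 c3) (sub_nonneg.2 v4)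
  have a5 := mul_nonneg (sub_nonneg.2 c4) (sub_nonneg.2 v5)
  have b2 := mul_nonneg (sub_nonneg.2 c1) hh.le
  have b3 := mul_nonneg (sub_nonneg.2 c2) hh.le
  have b4 := mul_nonneg (sub_nonneg.2 c3) hh.le
  have b5 := mul_nonneg (sub_nonneg.2 c4) hh.le
  rw [Finset.sum_filter, Fin.sum_univ_six, Fin.sum_univ_six]
  clear v0 v0' v2 v3 v4 v5
  fin_cases k
  · exact absurd hk (by decide)
  · exact absurd hk (by decide)
  · have e : ∀ i : Fin 6, ¬ (2 ≤ i ∧ i < (2 : Fin 6)) := by decide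
    simp only [Fin.reduceFinMk]
    rw [if_neg (by decide), if_neg (by decide), if_neg (by decide), if_neg (by decide),
      if_neg (by decide), if_neg (by decide)]
    linarith
  · simp only [Fin.reduceFinMk]
    rw [if_neg (by decide), if_neg (by decide), if_pos (by decide), if_neg (by decide),
      if_neg (by decide), if_neg (by decide)]
    linarith
  · simp only [Fin.reduceFinMk]
    rw [if_neg (by decide), if_neg (by decide), if_pos (by decide), if_pos (by decide),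
      if_neg (by decide), if_neg (by decide)]
    linarith
  · simp only [Fin.reduceFinMk]
    rw [if_neg (by decide), if_neg (by decide), if_pos (by decide), if_pos (by decide),
      if_pos (by decide), if_neg (by decide)]
    linarith

theorem comb_b {m K : Fin 6 → ℝ} {h : ℝ} (hh : 0 < h) (h10 : m 0 ≤ m 1) (h0 : 0 < m 0)
    (hch : ∀ i j : Fin 6, (i : ℕ) + 1 = j → 2 / 3 * m i ≤ m j)
    (v0' : 4 / 3 * h ≤ K 0 + K 1 + 2 / 3 * K 2 + 4 / 9 * K 3 + 8 / 27 * K 4 + 16 / 81 * K 5)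
    (v1 : h ≤ K 1 + 2 / 3 * K 2 + 4 / 9 * K 3 + 8 / 27 * K 4 + 16 / 81 * K 5)
    (v2 : h ≤ K 2 + 2 / 3 * K 3 + 4 / 9 * K 4 + 8 / 27 * K 5)
    (v3 : h ≤ K 3 + 2 / 3 * K 4 + 4 / 9 * K 5) (v4 : h ≤ K 4 + 2 / 3 * K 5) (v5 : h ≤ K 5)
    (k : Fin 6) (hk : 2 ≤ k) :
    h * (m k + 1 / 3 * ∑ i ∈ Finset.univ.filter (· < k), m i) ≤ ∑ i, m i * K i := by
  have c1 := hch 1 2 rfl
  have c2 := hch 2 3 rfl
  have c3 := hch 3 4 rfl
  have c4 := hch 4 5 rfl
  have a0 := mul_nonneg h0.le (sub_nonneg.2 v0')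
  have a1 := mul_nonneg (sub_nonneg.2 h10) (sub_nonneg.2 v1)
  have a2 := mul_nonneg (sub_nonneg.2 c1) (sub_nonneg.2 v2)
  have a3 := mul_nonneg (sub_nonneg.2 c2) (sub_nonneg.2 v3)
  have a4 := mul_nonneg (sub_nonneg.2 c3) (sub_nonneg.2 v4)
  have a5 := mul_nonneg (sub_nonneg.2 c4) (sub_nonneg.2 v5)
  have b2 := mul_nonneg (sub_nonneg.2 c1) hh.le
  have b3 := mul_nonneg (sub_nonneg.2 c2) hh.le
  have b4 := mul_nonneg (sub_nonneg.2 c3) hh.le
  have b5 := mul_nonneg (sub_nonneg.2 c4) hh.le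
  rw [Finset.sum_filter, Fin.sum_univ_six, Fin.sum_univ_six]
  clear v0' v1 v2 v3 v4 v5
  fin_cases k
  · exact absurd hk (by decide)
  · exact absurd hk (by decide)
  · simp only [Fin.reduceFinMk]
    rw [if_pos (by decide), if_pos (by decide), if_neg (by decide), if_neg (by decide),
      if_neg (by decide), if_neg (by decide)]
    linarith
  · simp only [Fin.reduceFinMk]
    rw [if_pos (by decide), if_pos (by decide), if_pos (by decide), if_neg (by decide),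
      if_neg (by decide), if_neg (by decide)]
    linarith
  · simp only [Fin.reduceFinMk]
    rw [if_pos (by decide), if_pos (by decide), if_pos (by decide), if_pos (by decide),
      if_neg (by decide), if_neg (by decide)]
    linarith
  · simp only [Fin.reduceFinMk]
    rw [if_pos (by decide), if_pos (by decide), if_pos (by decide), if_pos (by decide),
      if_pos (by decide), if_neg (by decide)]
    linarith

/-- the real function of the second case -/
theorem fun5 {t : ℝ} (h0 : 2 / 3 ≤ t) (h1 : t ≤ 43 / 50) : 32 / 243 ≤ 3 * (1 - t) * t ^ 5 := by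
  have key : 3 * (1 - t) * t ^ 5 - 32 / 243 = (t - 2 / 3) *
      (-3 * t ^ 5 + t ^ 4 + 2 / 3 * t ^ 3 + 4 / 9 * t ^ 2 + 8 / 27 * t + 16 / 81) := by ring
  have hg : 0 ≤ -3 * t ^ 5 + t ^ 4 + 2 / 3 * t ^ 3 + 4 / 9 * t ^ 2 + 8 / 27 * t + 16 / 81 := by
    have t0 : 0 ≤ t := by linarith
    have s1 : 0 ≤ 43 / 50 - t := by linarith
    have e : -3 * t ^ 5 + t ^ 4 + 2 / 3 * t ^ 3 + 4 / 9 * t ^ 2 + 8 / 27 * t + 16 / 81 =
        3 * (t ^ 4 * (43 / 50 - t)) + 79 / 50 * (t ^ 3 * (43 / 50 - t)) +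
        (79 / 50 * (43 / 50) - 2 / 3) * (t ^ 2 * (43 / 50 - t)) +
        ((79 / 50 * (43 / 50) - 2 / 3) * (43 / 50) - 4 / 9) * (t * (43 / 50 - t)) +
        ((8 / 27 - ((79 / 50 * (43 / 50) - 2 / 3) * (43 / 50) - 4 / 9) * (43 / 50)) * t +
          16 / 81) := by ring
    rw [e]
    have g4 := mul_nonneg (pow_nonneg t0 4) s1
    have g3 := mul_nonneg (pow_nonneg t0 3) s1
    have g2 := mul_nonneg (pow_nonneg t0 2) s1
    have g1 := mul_nonneg t0 s1
    have f2 : (0 : ℝ) ≤ 79 / 50 * (43 / 50) - 2 / 3 := by norm_num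
    have f1 : (0 : ℝ) ≤ (79 / 50 * (43 / 50) - 2 / 3) * (43 / 50) - 4 / 9 := by norm_num
    have f0 : (0 : ℝ) ≤ 8 / 27 - ((79 / 50 * (43 / 50) - 2 / 3) * (43 / 50) - 4 / 9) * (43 / 50) := by
      norm_num
    have w2 := mul_nonneg f2 g2
    have w1 := mul_nonneg f1 g1
    have w0 := mul_nonneg f0 t0
    linarith
  have := mul_nonneg (sub_nonneg.2 h0) hg
  linarith

theorem pair_cover {x : ℂ} {μ : ℝ} (hx : ∀ e, IsEis e → 1 ≤ Complex.normSq (e + x) + μ)
    (y z : ℂ) : ∃ e f, IsEis e ∧ IsEis f ∧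
      Complex.normSq (e + f * x + y) + μ * Complex.normSq (f + z) ≤ 1 / 6 + μ / 2 :=
  pair_cover_of near_core hx y z

/-- a vector near to a subspace -/
theorem near_vec {x : Fin 6 → Fin 6 → ℂ} {m : Fin 6 → ℝ} (hm : ∀ i, 0 < m i)
    (hR : ∀ (i k : Fin 6), i ≤ k → ∀ v, IsLat v → v k ≠ 0 →
        m i ≤ ∑ j, if i ≤ j then m j * Complex.normSq (star (x j) ⬝ᵥ v) else 0)
    (hd : ∀ i, x i i = 1) (hz : ∀ i j, j < i → x i j = 0)
    (hsz : ∀ i j, i < j → Complex.normSq (x i j) ≤ 1 / 3) {k : Fin 6} (hk : 2 ≤ k) :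
    ∃ e f, IsEis e ∧ IsEis f ∧
      q (frm x m) (Pi.single 0 e + Pi.single 1 f + Pi.single k 1) ≤
        m 0 / 6 + m 1 / 2 +
          (m k + 1 / 3 * ∑ i ∈ Finset.univ.filter (fun i => 2 ≤ i ∧ i < k), m i) := by
  have m0 := hm 0
  have h2le := fun (e : ℂ) (he : IsEis e) => two_le (m := m) (x := x)
    (fun i k hik v hv hk => hR i k hik v hv (by rw [hk]; exact one_ne_zero)) hd hz
    (i := 0) (j := 1) rfl he
  obtain ⟨e, f, he, hf, hle⟩ := pair_cover (x := x 0 1) (μ := m 1 / m 0) (fun e he => by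
      have h1 := h2le e he
      have h3 : m 0 * (Complex.normSq (e + x 0 1) + m 1 / m 0) =
          m 0 * Complex.normSq (e + x 0 1) + m 1 := by field_simp
      have h2 : m 0 * 1 ≤ m 0 * (Complex.normSq (e + x 0 1) + m 1 / m 0) := by
        rw [h3]; linarith
      exact le_of_mul_le_mul_left h2 m0) (x 0 k) (x 1 k)
  refine ⟨star e, star f, he.star, hf.star, ?_⟩
  have hle2 : m 0 * Complex.normSq (e + f * x 0 1 + x 0 k) + m 1 * Complex.normSq (f + x 1 k) ≤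
      m 0 / 6 + m 1 / 2 := by
    have h1 := mul_le_mul_of_nonneg_left hle m0.le
    have h2 : m 0 * (Complex.normSq (e + f * x 0 1 + x 0 k) +
        m 1 / m 0 * Complex.normSq (f + x 1 k)) =
        m 0 * Complex.normSq (e + f * x 0 1 + x 0 k) + m 1 * Complex.normSq (f + x 1 k) := by
      field_simp
    have h3 : m 0 * (1 / 6 + m 1 / m 0 / 2) = m 0 / 6 + m 1 / 2 := by field_simp
    rw [h2, h3] at h1
    exact h1
  rw [q_frm]
  have h0k : (0 : Fin 6) < k := lt_of_lt_of_le (by decide) hk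
  have h1k : (1 : Fin 6) < k := lt_of_lt_of_le (by decide) hk
  have hval : ∀ l, star (x l) ⬝ᵥ (Pi.single 0 (star e) + Pi.single 1 (star f) +
      Pi.single k 1 : Fin 6 → ℂ) = star (x l 0 * e + x l 1 * f + x l k) := by
    intro l
    rw [dotProduct_add, dotProduct_add, dotProduct_single, dotProduct_single,
      dotProduct_single, Pi.star_apply, Pi.star_apply, Pi.star_apply, star_add, star_add,
      star_mul', star_mul']
    ring
  have hns : ∀ z : ℂ, Complex.normSq (star z) = Complex.normSq z := fun z =>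
    Complex.normSq_conj z
  have hterm : ∀ l, m l * Complex.normSq (star (x l) ⬝ᵥ (Pi.single 0 (star e) +
      Pi.single 1 (star f) + Pi.single k 1 : Fin 6 → ℂ)) ≤
      (if l = 0 then m 0 * Complex.normSq (e + f * x 0 1 + x 0 k) else 0) +
      (if l = 1 then m 1 * Complex.normSq (f + x 1 k) else 0) +
      ((if l = k then m k else 0) + (if 2 ≤ l ∧ l < k then 1 / 3 * m l else 0)) := by
    intro l
    rw [hval, hns]
    rcases Nat.lt_or_ge (l : ℕ) 2 with hl | hl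
    · have : l = 0 ∨ l = 1 := by
        rcases Nat.lt_or_ge (l : ℕ) 1 with h | h
        · left; ext; simp; omega
        · right; ext; simp; omega
      rcases this with rfl | rfl
      · rw [if_pos rfl, if_neg (by decide), if_neg h0k.ne, if_neg (by
          rintro ⟨h, -⟩; exact absurd h (by decide)), hd]
        have : (1 : ℂ) * e + x 0 1 * f + x 0 k = e + f * x 0 1 + x 0 k := by ring
        rw [this]
        simp
      · rw [if_neg (by decide), if_pos rfl, if_neg h1k.ne, if_neg (by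
          rintro ⟨h, -⟩; exact absurd h (by decide)), hd, hz 1 0 (by decide)]
        have : (0 : ℂ) * e + 1 * f + x 1 k = f + x 1 k := by ring
        rw [this]
        simp
    · have hl2 : (2 : Fin 6) ≤ l := by rw [Fin.le_def]; exact hl
      have l0 : l ≠ 0 := by rintro rfl; exact absurd hl (by decide)
      have l1 : l ≠ 1 := by rintro rfl; exact absurd hl (by decide)
      have z0 : x l 0 = 0 := hz l 0 (lt_of_lt_of_le (by decide) hl2)
      have z1 : x l 1 = 0 := hz l 1 (lt_of_lt_of_le (by decide) hl2)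
      rw [if_neg l0, if_neg l1, z0, z1]
      have : (0 : ℂ) * e + 0 * f + x l k = x l k := by ring
      rw [this]
      rcases lt_trichotomy l k with h | h | h
      · rw [if_neg h.ne, if_pos ⟨hl2, h⟩]
        have := mul_le_mul_of_nonneg_left (hsz l k h) (hm l).le
        linarith
      · rw [h, hd, if_pos rfl, if_neg (by simp)]
        simp
      · rw [hz l k h, if_neg h.ne', if_neg (fun hh => absurd hh.2 (not_lt.2 h.le))]
        simp
  refine (Finset.sum_le_sum fun l _ => hterm l).trans ?_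
  rw [Finset.sum_add_distrib, Finset.sum_add_distrib, Finset.sum_add_distrib,
    Finset.sum_ite_eq' Finset.univ (0 : Fin 6) (fun _ => m 0 * Complex.normSq (e + f * x 0 1 + x 0 k)),
    Finset.sum_ite_eq' Finset.univ (1 : Fin 6) (fun _ => m 1 * Complex.normSq (f + x 1 k)),
    Finset.sum_ite_eq' Finset.univ k (fun _ => m k), if_pos (Finset.mem_univ _),
    if_pos (Finset.mem_univ _), if_pos (Finset.mem_univ _), ← Finset.sum_filter, ← Finset.mul_sum]
  linarith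

/-! ### the key inequality in rank six -/

/-- the product of the weighted Schur complements -/
theorem prod_lower {m : Fin 6 → ℝ} {K : Matrix (Fin 6) (Fin 6) ℂ} (hK : Pd K) {P d : ℝ}
    (hP : 0 ≤ P) (hd : d ≤ K.det.re) (hd0 : 0 ≤ d) (hm : P ≤ ∏ i, m i) :
    P * d ≤ ∏ i, m i * hs 6 K i := by
  rw [Finset.prod_mul_distrib, prod_hs 6 K hK]
  exact mul_le_mul hm hd hd0 (hP.trans hm)

theorem case0 {m : Fin 6 → ℝ} (hm : ∀ i, 0 < m i) (hp : m 0 ^ 6 / 144 ≤ ∏ i, m i)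
    (h1 : 1 ≤ m 0) {K : Matrix (Fin 6) (Fin 6) ℂ} (hK : Pd K) {h : ℝ} (hh : 0 < h)
    (hmin : ∀ w, IsLat w → w ≠ 0 → h ≤ q K w) : 126 / 125 * h ≤ ∑ i, m i * hs 6 K i := by
  apply sum_lower 6 (by norm_num) _ (fun i => mul_nonneg (hm i).le (hs_pos 6 K hK i).le)
    (by positivity)
  have h2 := prod_lower hK (P := 1 / 144) (by norm_num) (herm6 hK hh hmin) (by positivity)
    (le_trans (by
      have := one_le_pow₀ h1 (n := 6)
      linarith) hp)
  refine le_trans ?_ h2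
  have h3 : (126 / 125 * h / ((6 : ℕ) : ℝ)) ^ 6 = (21 / 125) ^ 6 * h ^ 6 := by
    push_cast
    ring
  rw [h3]
  have h4 : (21 / 125 : ℝ) ^ 6 ≤ 1 / 144 * (1 / 144) := by norm_num
  calc (21 / 125 : ℝ) ^ 6 * h ^ 6 ≤ 1 / 144 * (1 / 144) * h ^ 6 :=
        mul_le_mul_of_nonneg_right h4 (pow_pos hh 6).le
    _ = _ := by ring

theorem case1 {m : Fin 6 → ℝ} (hm : ∀ i, 0 < m i) (hp : m 1 ^ 5 / 37 ≤ ∏ i : Fin 5, m i.succ)
    (h10 : 2 / 3 * m 0 ≤ m 1) (h1 : 1 ≤ m 1 + 1 / 3 * m 0)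
    {K : Matrix (Fin 6) (Fin 6) ℂ} (hK : Pd K) {h : ℝ} (hh : 0 < h)
    (hmin : ∀ w, IsLat w → w ≠ 0 → h ≤ q K w) : h ≤ ∑ i, m i * hs 6 K i := by
  have m0 := hm 0
  have m1 := hm 1
  rcases le_total (43 / 50) (m 1) with hc | hc
  · -- the last five terms are enough
    have e1 : ∀ i : Fin 5, hs 6 K i.succ = hs 5 (tl K) i := fun i => hs_succ K i
    have h2 : h ≤ ∑ i : Fin 5, m i.succ * hs 6 K i.succ := by
      apply sum_lower 5 (by norm_num) _
        (fun i => mul_nonneg (hm _).le (hs_pos 6 K hK _).le) hh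
      rw [Finset.prod_mul_distrib]
      simp only [e1]
      rw [prod_hs 5 (tl K) hK.tl]
      have h3 := herm5 hK.tl hh (min_tl hmin)
      have h4 : (43 / 50 : ℝ) ^ 5 / 37 ≤ ∏ i : Fin 5, m i.succ := by
        refine le_trans ?_ hp
        have := pow_le_pow_left₀ (by norm_num) hc 5
        linarith
      have h5 := mul_le_mul h4 h3 (by positivity) (le_trans (by norm_num) h4)
      refine le_trans ?_ h5
      have h6 : (h / ((5 : ℕ) : ℝ)) ^ 5 = 1 / 3125 * h ^ 5 := by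
        push_cast
        ring
      rw [h6]
      have h7 : (1 : ℝ) / 3125 ≤ (43 / 50) ^ 5 / 37 * (1 / 37) := by norm_num
      calc (1 : ℝ) / 3125 * h ^ 5 ≤ (43 / 50) ^ 5 / 37 * (1 / 37) * h ^ 5 :=
            mul_le_mul_of_nonneg_right h7 (pow_pos hh 5).le
        _ = _ := by ring
    rw [Fin.sum_univ_succ]
    have := mul_nonneg m0.le (hs_pos 6 K hK 0).le
    linarith
  · -- all six terms
    have ht : 2 / 3 ≤ m 1 := by linarith
    have h2 : 3 * (1 - m 1) ≤ m 0 := by linarith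
    have h3 := fun5 ht hc
    have h4 : 32 / 243 / 37 ≤ ∏ i, m i := by
      rw [Fin.prod_univ_succ]
      have h5 := mul_le_mul_of_nonneg_left hp m0.le
      refine le_trans ?_ h5
      have h6 := mul_le_mul_of_nonneg_right h2 (pow_nonneg m1.le 5)
      linarith
    apply sum_lower 6 (by norm_num) _ (fun i => mul_nonneg (hm i).le (hs_pos 6 K hK i).le) hh
    have h5 := prod_lower hK (by norm_num) (herm6 hK hh hmin) (by positivity) h4
    refine le_trans ?_ h5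
    have h6 : (h / ((6 : ℕ) : ℝ)) ^ 6 = 1 / 46656 * h ^ 6 := by
      push_cast
      ring
    rw [h6]
    have h7 : (1 : ℝ) / 46656 ≤ 32 / 243 / 37 * (1 / 144) := by norm_num
    calc (1 : ℝ) / 46656 * h ^ 6 ≤ 32 / 243 / 37 * (1 / 144) * h ^ 6 :=
          mul_le_mul_of_nonneg_right h7 (pow_pos hh 6).le
      _ = _ := by ring

theorem lemA_pd6 {M H : Matrix (Fin 6) (Fin 6) ℂ} (hM : Pd M) (hH : Pd H) {h : ℝ}
    (hh : 0 < h) (hmin : ∀ w, IsLat w → w ≠ 0 → h ≤ q H w) {J : Set (Fin 6 → ℂ)} (hJ : IsSub J)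
    (hne : ∃ v, IsLat v ∧ v ∉ J) (hMJ : ∀ v, IsLat v → v ∉ J → 1 ≤ q M v) :
    h ≤ (M * H).trace.re := by
  classical
  obtain ⟨g, x, m, hg, hm, hR, hd, hz, hsz, hdec⟩ := exists_red3 6 M hM
  obtain ⟨g', h1, h2, h3⟩ := hg.inv
  have hg' : IsGL g' := ⟨h1, g, hg.ent, h3, h2⟩
  have hN : Pd (frm x m) := by
    have := hM.conj hg
    rw [hdec] at this
    exact this
  have hqN : ∀ v, q M (g *ᵥ v) = q (frm x m) v := by
    intro v
    rw [← q_conj, hdec]
    rfl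
  have hR1 : ∀ (i k : Fin 6), i ≤ k → ∀ v, IsLat v → v k = 1 →
        m i ≤ ∑ j, if i ≤ j then m j * Complex.normSq (star (x j) ⬝ᵥ v) else 0 :=
    fun i k hik v hv hk => hR i k hik v hv (by rw [hk]; exact one_ne_zero)
  have hch : ∀ i j : Fin 6, (i : ℕ) + 1 = j → 2 / 3 * m i ≤ m j :=
    fun i j hij => chain hm hR1 hd hz hsz hij
  rw [trace_dec h2 hdec H]
  set K := g' * H * g'ᴴ with hK
  have hKe : K = g'ᴴᴴ * H * g'ᴴ := by rw [conjTranspose_conjTranspose]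
  have hKpd : Pd K := by rw [hKe]; exact hH.conj hg'.conjTranspose
  have hKmin : ∀ w, IsLat w → w ≠ 0 → h ≤ q K w := by
    intro w hw hw0
    rw [hKe, q_conj]
    exact hmin _ (hg'.conjTranspose.mulVec hw) (hg'.conjTranspose.mulVec_ne hw0)
  have h4 : ∑ i, m i * hs 6 K i ≤ ∑ i, m i * q K (x i) :=
    Finset.sum_le_sum fun i _ => mul_le_mul_of_nonneg_left (hs_le 6 K hKpd x hd hz i) (hm i).le
  refine le_trans ?_ h4
  -- a basis vector outside `J`
  have hex : ∃ k, g *ᵥ (Pi.single k 1) ∉ J := by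
    by_contra hcon
    push Not at hcon
    obtain ⟨v, hv, hvJ⟩ := hne
    apply hvJ
    have h5 : v = ∑ k, (g' *ᵥ v) k • (g *ᵥ (Pi.single k 1)) := by
      have h6 : g' *ᵥ v = ∑ k, (g' *ᵥ v) k • (Pi.single k 1 : Fin 6 → ℂ) := by
        ext i
        simp [Finset.sum_apply, Pi.single_apply]
      have h7 : g *ᵥ (g' *ᵥ v) = v := by rw [mulVec_mulVec, h2, one_mulVec]
      calc v = g *ᵥ (g' *ᵥ v) := h7.symm
        _ = g *ᵥ (∑ k, (g' *ᵥ v) k • (Pi.single k 1 : Fin 6 → ℂ)) := by rw [← h6]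
        _ = _ := by
            rw [mulVec_sum]
            exact Finset.sum_congr rfl fun k _ => mulVec_smul _ _ _
    rw [h5]
    exact hJ.sum _ _ fun k _ => hJ.smul _ (hg'.mulVec hv k) _ (hcon k)
  -- the first one
  obtain ⟨k, hk, hkmin⟩ : ∃ k, g *ᵥ (Pi.single k 1) ∉ J ∧
      ∀ i < k, g *ᵥ (Pi.single i 1) ∈ J := by
    obtain ⟨k, hk⟩ := (Finset.univ.filter fun k => g *ᵥ (Pi.single k 1) ∉ J).exists_minimal
      (by obtain ⟨k, hk⟩ := hex; exact ⟨k, by simpa using hk⟩)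
    refine ⟨k, by simpa using hk.1, fun i hi => ?_⟩
    by_contra hcon
    exact absurd (hk.2 (by simpa using hcon) hi.le) (not_le.2 hi)
  -- the size reduced vector
  have hsize : 1 ≤ m k + 1 / 3 * ∑ i ∈ Finset.univ.filter (· < k), m i := by
    have h5 := hMJ _ (hg.mulVec (isLat_single k)) hk
    rw [q_single M g x m hdec k] at h5
    refine h5.trans ?_
    have h7 : ∀ i, m i * Complex.normSq (x i k) ≤
        (if i = k then m k else 0) + (if i < k then 1 / 3 * m i else 0) := by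
      intro i
      rcases lt_trichotomy i k with h | h | h
      · rw [if_neg h.ne, if_pos h, zero_add, mul_comm]
        exact mul_le_mul_of_nonneg_right (hsz i k h) (hm i).le
      · rw [h, hd, if_pos rfl, if_neg (lt_irrefl _)]
        simp
      · rw [hz i k h, if_neg h.ne', if_neg (not_lt.2 h.le)]
        simp
    refine (Finset.sum_le_sum fun i _ => h7 i).trans (le_of_eq ?_)
    rw [Finset.sum_add_distrib, Finset.sum_ite_eq' Finset.univ k (fun _ => m k),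
      if_pos (Finset.mem_univ _), Finset.mul_sum, Finset.sum_filter]
  rcases Nat.lt_or_ge (k : ℕ) 2 with hk2 | hk2
  · rcases Nat.lt_or_ge (k : ℕ) 1 with hk1 | hk1
    · -- the shortest vector is outside `J`
      have k0 : k = 0 := by ext; simp; omega
      subst k0
      have h5 : 1 ≤ m 0 := by simpa using hsize
      have h6 := case0 hm (prod6 hN hm hR hd hz) h5 hKpd hh hKmin
      linarith
    · have k1 : k = 1 := by ext; simp; omega
      subst k1
      have h5 : 1 ≤ m 1 + 1 / 3 * m 0 := by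
        have e : Finset.univ.filter (· < (1 : Fin 6)) = {0} := by decide
        rw [e, Finset.sum_singleton] at hsize
        exact hsize
      exact case1 hm (prod5 hN hm hR hd hz) (hch 0 1 rfl) h5 hKpd hh hKmin
  · have hk2' : (2 : Fin 6) ≤ k := by rw [Fin.le_def]; exact hk2
    obtain ⟨v0, v0', v1, v2, v3, v4, v5⟩ := allV hKpd hh hKmin
    rcases le_total (m 1) (m 0) with h10 | h10
    · obtain ⟨e, f, he, hf, hle⟩ := near_vec hm hR hd hz hsz hk2'
      have hin : g *ᵥ (Pi.single 0 e + Pi.single 1 f + Pi.single k 1 : Fin 6 → ℂ) ∉ J := by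
        intro hcon
        apply hk
        have e0 : ∀ (i : Fin 6) (c : ℂ), g *ᵥ (Pi.single i c : Fin 6 → ℂ) =
            c • (g *ᵥ (Pi.single i 1 : Fin 6 → ℂ)) := by
          intro i c
          rw [← mulVec_smul]
          congr 1
          ext j
          simp [Pi.single_apply]
        have e1 : g *ᵥ (Pi.single k 1 : Fin 6 → ℂ) =
            ∑ i : Fin 3, (![1, -e, -f] : Fin 3 → ℂ) i •
              (![g *ᵥ (Pi.single 0 e + Pi.single 1 f + Pi.single k 1 : Fin 6 → ℂ),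
                g *ᵥ (Pi.single 0 1 : Fin 6 → ℂ), g *ᵥ (Pi.single 1 1 : Fin 6 → ℂ)] :
                Fin 3 → Fin 6 → ℂ) i := by
          rw [Fin.sum_univ_three]
          simp only [Matrix.cons_val_zero, Matrix.cons_val_one, Matrix.cons_val]
          rw [mulVec_add, mulVec_add, e0 0 e, e0 1 f]
          module
        rw [e1]
        refine hJ.sum _ _ fun i _ => ?_
        fin_cases i
        · exact hJ.smul _ IsEis.one _ hcon
        · exact hJ.smul _ he.neg _ (hkmin 0 (lt_of_lt_of_le (by decide) hk2'))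
        · exact hJ.smul _ hf.neg _ (hkmin 1 (lt_of_lt_of_le (by decide) hk2'))
      have h5 := hMJ _ (hg.mulVec (fun l => by
        rw [Pi.add_apply, Pi.add_apply]
        have hh : ∀ (a : Fin 6) {c : ℂ}, IsEis c → IsEis ((Pi.single a c : Fin 6 → ℂ) l) := by
          intro a c hc
          rw [Pi.single_apply]
          split_ifs
          · exact hc
          · exact IsEis.zero
        exact ((hh 0 he).add (hh 1 hf)).add (hh k IsEis.one))) hin
      rw [hqN] at h5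
      have h6 := comb_a hh h10 hch v0 v0' v2 v3 v4 v5 k hk2'
      refine le_trans ?_ h6
      nlinarith [h5.trans hle]
    · have h6 := comb_b hh h10 (hm 0) hch v0' v1 v2 v3 v4 v5 k hk2'
      refine le_trans ?_ h6
      nlinarith

theorem lemA_pd6' {M H : Matrix (Fin 6) (Fin 6) ℂ} (hM : Pd M)
    (hH : Pd H) {h : ℝ} (hh : 0 < h) (hmin : ∀ w, IsLat w → w ≠ 0 → h ≤ q H w)
    (hM1 : ∀ v, IsLat v → v ≠ 0 → 1 ≤ q M v) : 126 / 125 * h ≤ (M * H).trace.re := by
  obtain ⟨g, x, m, hg, hm, hR, hd, hz, hsz, hdec⟩ := exists_red3 6 M hM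
  obtain ⟨g', h1, h2, h3⟩ := hg.inv
  have hg' : IsGL g' := ⟨h1, g, hg.ent, h3, h2⟩
  have hN : Pd (frm x m) := by
    have := hM.conj hg
    rw [hdec] at this
    exact this
  rw [trace_dec h2 hdec H]
  set K := g' * H * g'ᴴ with hK
  have hKe : K = g'ᴴᴴ * H * g'ᴴ := by rw [conjTranspose_conjTranspose]
  have hKpd : Pd K := by rw [hKe]; exact hH.conj hg'.conjTranspose
  have hKmin : ∀ w, IsLat w → w ≠ 0 → h ≤ q K w := by
    intro w hw hw0
    rw [hKe, q_conj]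
    exact hmin _ (hg'.conjTranspose.mulVec hw) (hg'.conjTranspose.mulVec_ne hw0)
  have h4 : ∑ i, m i * hs 6 K i ≤ ∑ i, m i * q K (x i) :=
    Finset.sum_le_sum fun i _ => mul_le_mul_of_nonneg_left (hs_le 6 K hKpd x hd hz i) (hm i).le
  refine le_trans ?_ h4
  have h5 : 1 ≤ m 0 := by
    have h2 := hM1 _ (hg.mulVec (isLat_single 0)) (hg.mulVec_ne (single_ne 0))
    rw [q_single M g x m hdec 0, Finset.sum_eq_single 0] at h2
    · rw [hd] at h2
      simpa using h2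
    · intro j _ hj
      rw [hz j 0 (Fin.pos_of_ne_zero hj)]
      simp
    · intro h; exact absurd (Finset.mem_univ _) h
  exact case0 hm (prod6 hN hm hR hd hz) h5 hKpd hh hKmin

variable {n : ℕ}

/-- **The key inequality.** -/
theorem lemA (hn : n ≤ 6) {M H : Matrix (Fin n) (Fin n) ℂ} (hM : Psd M) (hH : Pd H) {h : ℝ}
    (hh : 0 < h) (hmin : ∀ w, IsLat w → w ≠ 0 → h ≤ q H w) {J : Set (Fin n → ℂ)} (hJ : IsSub J)
    (hne : ∃ v, IsLat v ∧ v ∉ J) (hMJ : ∀ v, IsLat v → v ∉ J → 1 ≤ q M v) :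
    h ≤ (M * H).trace.re := by
  rcases Nat.lt_or_ge n 6 with h5 | h5
  · exact Pool.Agent.K6.H19.E5.lemA (by omega) hM hH hh hmin hJ hne hMJ
  · obtain rfl : n = 6 := le_antisymm hn h5
    refine trace_lim fun ε hε => ?_
    obtain ⟨h1, h2⟩ := hM.add_one hε
    refine lemA_pd6 h1 hH hh hmin hJ hne fun v hv hvJ => ?_
    rw [h2]
    have h3 := hMJ v hv hvJ
    have h4 : 0 ≤ ∑ i, Complex.normSq (v i) := Finset.sum_nonneg fun i _ => Complex.normSq_nonneg _
    nlinarith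

theorem lemA' (hn0 : 2 ≤ n) (hn : n ≤ 6) {M H : Matrix (Fin n) (Fin n) ℂ} (hM : Psd M)
    (hH : Pd H) {h : ℝ} (hh : 0 < h) (hmin : ∀ w, IsLat w → w ≠ 0 → h ≤ q H w)
    (hM1 : ∀ v, IsLat v → v ≠ 0 → 1 ≤ q M v) : 126 / 125 * h ≤ (M * H).trace.re := by
  rcases Nat.lt_or_ge n 6 with h5 | h5
  · exact Pool.Agent.K6.H19.E5.lemA' hn0 (by omega) hM hH hh hmin hM1
  · obtain rfl : n = 6 := le_antisymm hn h5
    refine trace_lim fun ε hε => ?_
    obtain ⟨h1, h2⟩ := hM.add_one hε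
    refine lemA_pd6' h1 hH hh hmin fun v hv hv0 => ?_
    rw [h2]
    have h3 := hM1 v hv hv0
    have h4 : 0 ≤ ∑ i, Complex.normSq (v i) := Finset.sum_nonneg fun i _ => Complex.normSq_nonneg _
    nlinarith

end Pool.Agent.K6.H56.E6
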