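import Pool.Agent.R895.Eis

/-!
# Barycentric coordinates in the triangles of the hexagonal lattice
-/

set_option autoImplicit false

namespace Pool.Agent.K6.H56.E6

open Pool.Agent.R895

/-- the vertices `0, 1, 1 + ω` of a triangle -/
noncomputable def cv : Fin 3 → ℂ := ![0, 1, 1 + om]

/-- barycentric deviation from the vertex `j` -/
noncomputable def dv (w : Fin 3 → ℝ) (j : Fin 3) : ℂ := ∑ i, (w i : ℂ) * cv i - cv j

/-- points with barycentric coordinates have a near vertex -/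
def Near (x : ℂ) (μ : ℝ) : Prop := ∀ w v : Fin 3 → ℝ, (∀ i, 0 ≤ w i) → (∀ i, 0 ≤ v i) →
  ∑ i, w i = 1 → ∑ i, v i = 1 → ∃ j k : Fin 3,
    Complex.normSq (dv v k - x * dv w j) + μ * Complex.normSq (dv w j) ≤ 1 / 6 + μ / 2

end Pool.Agent.K6.H56.E6
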