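import Pool.Agent.R895.Red

/-!
# Blichfeldt's pointwise inequality
-/

set_option autoImplicit false

namespace Pool.Agent.K6.H56.E6

open Matrix Pool.Agent.R895

section lagrange

variable {ι : Type*} [Fintype ι] (H : Matrix ι ι ℂ)

theorem dot_sum_left {κ : Type*} (S : Finset κ) (f : κ → ι → ℂ) (v : ι → ℂ) :
    star (∑ w ∈ S, f w) ⬝ᵥ (H *ᵥ v) = ∑ w ∈ S, star (f w) ⬝ᵥ (H *ᵥ v) := by
  rw [star_sum, sum_dotProduct]

theorem dot_sum_right {κ : Type*} (S : Finset κ) (f : κ → ι → ℂ) (v : ι → ℂ) :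
    v ⬝ᵥ (H *ᵥ (∑ w ∈ S, f w)) = ∑ w ∈ S, v ⬝ᵥ (H *ᵥ f w) := by
  rw [mulVec_sum, dotProduct_sum]

/-- Lagrange's identity -/
theorem lagrange {κ : Type*} (S : Finset κ) (y : κ → ι → ℂ) :
    ∑ w ∈ S, ∑ w' ∈ S, q H (y w - y w') =
      2 * S.card * ∑ w ∈ S, q H (y w) - 2 * q H (∑ w ∈ S, y w) := by
  have h1 : ∀ w w', q H (y w - y w') = q H (y w) + q H (y w')
      - ((star (y w) ⬝ᵥ (H *ᵥ y w')).re + (star (y w') ⬝ᵥ (H *ᵥ y w)).re) := by
    intro w w'
    unfold q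
    rw [star_sub, mulVec_sub, dotProduct_sub, sub_dotProduct, sub_dotProduct]
    simp only [Complex.sub_re]
    ring
  have h2 : ∑ w ∈ S, ∑ w' ∈ S, (star (y w) ⬝ᵥ (H *ᵥ y w')).re = q H (∑ w ∈ S, y w) := by
    unfold q
    rw [dot_sum_left, Complex.re_sum]
    refine Finset.sum_congr rfl fun w _ => ?_
    rw [dot_sum_right, Complex.re_sum]
  have h3 : ∑ w ∈ S, ∑ w' ∈ S, (star (y w') ⬝ᵥ (H *ᵥ y w)).re = q H (∑ w ∈ S, y w) := by
    rw [Finset.sum_comm]
    exact h2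
  simp_rw [h1, Finset.sum_sub_distrib, Finset.sum_add_distrib, h2, h3]
  simp only [Finset.sum_const, nsmul_eq_mul, ← Finset.mul_sum]
  ring

end lagrange

/-- PIECE B1 -/
theorem blich_point {n : ℕ} {H : Matrix (Fin n) (Fin n) ℂ} (hH : Pd H) {h : ℝ} (hh : 0 < h)
    (hmin : ∀ w, IsLat w → w ≠ 0 → h ≤ q H w) (x : Fin n → ℂ) (S : Finset (Fin n → ℂ))
    (hS : ∀ w ∈ S, IsLat w) : ∑ w ∈ S, (1 - 2 * q H (x - w) / h) ≤ 1 := by
  classical
  rcases S.eq_empty_or_nonempty with rfl | hne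
  · simp
  have hN : (0 : ℝ) < S.card := by exact_mod_cast hne.card_pos
  have h1 := lagrange H S fun w => x - w
  have h2 : (S.card : ℝ) * (((S.card : ℝ) - 1) * h) ≤
      ∑ w ∈ S, ∑ w' ∈ S, q H ((x - w) - (x - w')) := by
    have h3 : ∀ w ∈ S, ((S.card : ℝ) - 1) * h ≤ ∑ w' ∈ S, q H ((x - w) - (x - w')) := by
      intro w hw
      rw [← Finset.sum_erase_add _ _ hw]
      have h4 : q H ((x - w) - (x - w)) = 0 := by
        rw [sub_self]
        simp [q]
      rw [h4, add_zero]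
      have h5 : ((S.erase w).card : ℝ) = (S.card : ℝ) - 1 := by
        rw [Finset.card_erase_of_mem hw, Nat.cast_sub hne.card_pos, Nat.cast_one]
      calc ((S.card : ℝ) - 1) * h = ∑ _w' ∈ S.erase w, h := by
            rw [Finset.sum_const, nsmul_eq_mul, h5]
        _ ≤ _ := by
            refine Finset.sum_le_sum fun w' hw' => ?_
            have h6 : (x - w) - (x - w') = w' - w := by abel
            rw [h6]
            refine hmin _ (fun i => ?_) ?_
            · exact (hS w' (Finset.mem_of_mem_erase hw') i).sub (hS w hw i)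
            · rw [sub_ne_zero]
              exact Finset.ne_of_mem_erase hw'
    calc (S.card : ℝ) * (((S.card : ℝ) - 1) * h) = ∑ _w ∈ S, ((S.card : ℝ) - 1) * h := by
          rw [Finset.sum_const, nsmul_eq_mul]
      _ ≤ _ := Finset.sum_le_sum h3
  rw [h1] at h2
  have h7 : 0 ≤ q H (∑ w ∈ S, (x - w)) := hH.psd.2 _
  have h8 : ((S.card : ℝ) - 1) * h ≤ 2 * ∑ w ∈ S, q H (x - w) := by
    have h9 : (S.card : ℝ) * (((S.card : ℝ) - 1) * h) ≤
        (S.card : ℝ) * (2 * ∑ w ∈ S, q H (x - w)) := by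
      calc _ ≤ _ := h2
        _ ≤ _ := by linarith
    exact le_of_mul_le_mul_left h9 hN
  have h10 : ∑ w ∈ S, (1 - 2 * q H (x - w) / h) = S.card - (2 * ∑ w ∈ S, q H (x - w)) / h := by
    rw [Finset.sum_sub_distrib, Finset.sum_const, nsmul_eq_mul, mul_one, ← Finset.sum_div,
      ← Finset.mul_sum]
  rw [h10]
  have h11 : (S.card : ℝ) - 1 ≤ (2 * ∑ w ∈ S, q H (x - w)) / h := by
    rw [le_div_iff₀ hh]
    exact h8
  linarith

end Pool.Agent.K6.H56.E6
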